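import Mathlib

/-!
Comparison of the sums of `l * |l|` over two finite families with the help of the sums of
`arctan (l / y)`.
-/

set_option autoImplicit false

open Finset Filter Topology

namespace Pool.Agent.R391.SqE

/-- the primitive of `Y * arctan (l / Y)` -/
noncomputable def hh (l Y : ℝ) : ℝ := (Y ^ 2 + l ^ 2) / 2 * Real.arctan (l / Y) + l * Y / 2

theorem hh_deriv (l : ℝ) {Y : ℝ} (hY : 0 < Y) :
    HasDerivAt (hh l) (Y * Real.arctan (l / Y)) Y := by
  have h1 : HasDerivAt (fun Y : ℝ => l / Y) (-l / Y ^ 2) Y := by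
    have h := (hasDerivAt_inv hY.ne').const_mul l
    have e : (fun Y : ℝ => l / Y) = fun Y => l * Y⁻¹ := by
      funext Z
      rw [div_eq_mul_inv]
    rw [e]
    have e2 : -l / Y ^ 2 = l * -(Y ^ 2)⁻¹ := by
      rw [div_eq_mul_inv]
      ring
    rw [e2]
    exact h
  have h2 := h1.arctan
  have h3 : HasDerivAt (fun Y : ℝ => (Y ^ 2 + l ^ 2) / 2) Y Y := by
    have h := ((hasDerivAt_pow 2 Y).add_const (l ^ 2)).div_const 2
    have e : ((2 : ℕ) : ℝ) * Y ^ (2 - 1) / 2 = Y := by
      norm_num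
    rw [e] at h
    exact h
  have h4 : HasDerivAt (fun Y : ℝ => l * Y / 2) (l / 2) Y := by
    have h := ((hasDerivAt_id Y).const_mul l).div_const 2
    simpa using h
  have h5 := (h3.mul h2).add h4
  have h6 : Y * Real.arctan (l / Y) = Y * Real.arctan (l / Y) + (Y ^ 2 + l ^ 2) / 2 *
      (1 / (1 + (l / Y) ^ 2) * (-l / Y ^ 2)) + l / 2 := by
    have h7 : (Y ^ 2 + l ^ 2) ≠ 0 := by positivity
    have h8 : 1 + (l / Y) ^ 2 = (Y ^ 2 + l ^ 2) / Y ^ 2 := by
      field_simp
    rw [h8]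
    field_simp
    ring
  rw [h6]
  exact h5

theorem hh_zero (l : ℝ) : Tendsto (hh l) (𝓝[>] 0) (𝓝 (Real.pi / 4 * (l * |l|))) := by
  have hA : Tendsto (fun Y : ℝ => (Y ^ 2 + l ^ 2) / 2) (𝓝[>] 0) (𝓝 (l ^ 2 / 2)) := by
    have h : Continuous fun Y : ℝ => (Y ^ 2 + l ^ 2) / 2 := by fun_prop
    have h2 := (h.tendsto 0).mono_left (nhdsWithin_le_nhds (s := Set.Ioi (0 : ℝ)))
    simpa using h2
  have hB : Tendsto (fun Y : ℝ => l * Y / 2) (𝓝[>] 0) (𝓝 0) := by
    have h : Continuous fun Y : ℝ => l * Y / 2 := by fun_prop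
    have h2 := (h.tendsto 0).mono_left (nhdsWithin_le_nhds (s := Set.Ioi (0 : ℝ)))
    simpa using h2
  rcases lt_trichotomy l 0 with h | h | h
  · have h1 : Tendsto (fun Y : ℝ => l / Y) (𝓝[>] 0) atBot := by
      simp_rw [div_eq_mul_inv]
      exact Tendsto.const_mul_atTop_of_neg h tendsto_inv_nhdsGT_zero
    have h2 : Tendsto (fun Y : ℝ => Real.arctan (l / Y)) (𝓝[>] 0) (𝓝 (-(Real.pi / 2))) :=
      (Real.tendsto_arctan_atBot.mono_right nhdsWithin_le_nhds).comp h1
    have h3 := (hA.mul h2).add hB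
    rw [abs_of_neg h]
    have e : Real.pi / 4 * (l * -l) = l ^ 2 / 2 * -(Real.pi / 2) + 0 := by ring
    rw [e]
    exact h3
  · subst h
    have h1 : hh 0 = fun _ => (0 : ℝ) := by
      funext Y
      simp [hh]
    rw [h1]
    simp
  · have h1 : Tendsto (fun Y : ℝ => l / Y) (𝓝[>] 0) atTop := by
      simp_rw [div_eq_mul_inv]
      exact Tendsto.const_mul_atTop h tendsto_inv_nhdsGT_zero
    have h2 : Tendsto (fun Y : ℝ => Real.arctan (l / Y)) (𝓝[>] 0) (𝓝 (Real.pi / 2)) :=
      (Real.tendsto_arctan_atTop.mono_right nhdsWithin_le_nhds).comp h1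
    have h3 := (hA.mul h2).add hB
    rw [abs_of_pos h]
    have e : Real.pi / 4 * (l * l) = l ^ 2 / 2 * (Real.pi / 2) + 0 := by ring
    rw [e]
    exact h3

theorem arctan_bound {u : ℝ} (hu : 0 ≤ u) : u - u ^ 3 ≤ Real.arctan u ∧ Real.arctan u ≤ u := by
  constructor
  · have hmono : MonotoneOn (fun x : ℝ => Real.arctan x - x + x ^ 3) (Set.Ici 0) := by
      have hd : ∀ x : ℝ, HasDerivAt (fun x : ℝ => Real.arctan x - x + x ^ 3)
          (1 / (1 + x ^ 2) - 1 + 3 * x ^ 2) x := by
        intro x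
        have h := ((Real.hasDerivAt_arctan x).sub (hasDerivAt_id x)).add (hasDerivAt_pow 3 x)
        have e : ((3 : ℕ) : ℝ) * x ^ (3 - 1) = 3 * x ^ 2 := by
          norm_num
        rw [e] at h
        exact h
      refine monotoneOn_of_deriv_nonneg (convex_Ici 0) ?_ ?_ ?_
      · exact fun x _ => (hd x).continuousAt.continuousWithinAt
      · exact fun x _ => (hd x).differentiableAt.differentiableWithinAt
      · intro x _
        rw [(hd x).deriv]
        have h1 : 1 / (1 + x ^ 2) - 1 = -(x ^ 2 / (1 + x ^ 2)) := by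
          field_simp
          ring
        rw [h1]
        have h2 : x ^ 2 / (1 + x ^ 2) ≤ x ^ 2 := by
          apply div_le_self (sq_nonneg x)
          have := sq_nonneg x
          linarith
        have := sq_nonneg x
        linarith
    have h := hmono (Set.mem_Ici.2 le_rfl) (Set.mem_Ici.2 hu) hu
    simp only [Real.arctan_zero] at h
    norm_num at h
    linarith
  · have hmono : MonotoneOn (fun x : ℝ => x - Real.arctan x) (Set.Ici 0) := by
      have hd : ∀ x : ℝ, HasDerivAt (fun x : ℝ => x - Real.arctan x)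
          (1 - 1 / (1 + x ^ 2)) x := by
        intro x
        exact (hasDerivAt_id x).sub (Real.hasDerivAt_arctan x)
      refine monotoneOn_of_deriv_nonneg (convex_Ici 0) ?_ ?_ ?_
      · exact fun x _ => (hd x).continuousAt.continuousWithinAt
      · exact fun x _ => (hd x).differentiableAt.differentiableWithinAt
      · intro x _
        rw [(hd x).deriv]
        have h2 : 1 / (1 + x ^ 2) ≤ 1 := by
          rw [div_le_one (by positivity)]
          have := sq_nonneg x
          linarith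
        linarith
    have h := hmono (Set.mem_Ici.2 le_rfl) (Set.mem_Ici.2 hu) hu
    simp only [Real.arctan_zero] at h
    norm_num at h
    linarith

theorem arctan_abs (u : ℝ) : |Real.arctan u - u| ≤ |u| ^ 3 := by
  rcases le_total 0 u with h | h
  · obtain ⟨h1, h2⟩ := arctan_bound h
    rw [abs_of_nonneg h, abs_le]
    constructor <;> nlinarith [pow_nonneg h 3]
  · obtain ⟨h1, h2⟩ := arctan_bound (neg_nonneg.2 h)
    rw [Real.arctan_neg] at h1 h2
    rw [abs_of_nonpos h, abs_le]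
    have h3 : 0 ≤ (-u) ^ 3 := pow_nonneg (neg_nonneg.2 h) 3
    constructor <;> linarith

theorem hh_inf (l : ℝ) : Tendsto (fun Y => hh l Y - l * Y) atTop (𝓝 0) := by
  have hl : Tendsto (fun Y : ℝ => l / Y) atTop (𝓝 0) := tendsto_const_nhds.div_atTop tendsto_id
  have h1 : Tendsto (fun Y : ℝ => l ^ 2 / 2 * Real.arctan (l / Y)) atTop (𝓝 0) := by
    have h2 := ((Real.continuous_arctan.tendsto 0).comp hl).const_mul (l ^ 2 / 2)
    simpa using h2
  have h2 : Tendsto (fun Y : ℝ => Y ^ 2 / 2 * (Real.arctan (l / Y) - l / Y)) atTop (𝓝 0) := by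
    have h3 : Tendsto (fun Y : ℝ => |l| ^ 3 / 2 / Y) atTop (𝓝 0) :=
      tendsto_const_nhds.div_atTop tendsto_id
    refine squeeze_zero_norm' ?_ h3
    filter_upwards [eventually_gt_atTop (0 : ℝ)] with Y hY
    rw [Real.norm_eq_abs, abs_mul, abs_of_nonneg (by positivity : (0 : ℝ) ≤ Y ^ 2 / 2)]
    have h4 := arctan_abs (l / Y)
    rw [abs_div l Y, abs_of_pos hY] at h4
    calc Y ^ 2 / 2 * |Real.arctan (l / Y) - l / Y| ≤ Y ^ 2 / 2 * (|l| / Y) ^ 3 :=
          mul_le_mul_of_nonneg_left h4 (by positivity)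
      _ = |l| ^ 3 / 2 / Y := by
          field_simp
  have h3 := h2.add h1
  rw [add_zero] at h3
  refine h3.congr' ?_
  filter_upwards [eventually_gt_atTop (0 : ℝ)] with Y hY
  unfold hh
  field_simp
  ring

/-- **Comparison.** -/
theorem compare {ι κ : Type*} [Fintype ι] [Fintype κ] (a : ι → ℝ) (b : κ → ℝ)
    (ha : ∑ i, a i = 0) (hb : ∑ i, b i = 0)
    (h : ∀ y : ℝ, 0 < y → ∑ i, Real.arctan (a i / y) ≤ ∑ i, Real.arctan (b i / y)) :
    ∑ i, b i * |b i| ≤ ∑ i, a i * |a i| := by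
  obtain ⟨F, hF⟩ : ∃ F : ℝ → ℝ, F = fun Y => ∑ i, hh (a i) Y - ∑ i, hh (b i) Y := ⟨_, rfl⟩
  have hd : ∀ Y, 0 < Y → HasDerivAt F
      (∑ i, Y * Real.arctan (a i / Y) - ∑ i, Y * Real.arctan (b i / Y)) Y := by
    intro Y hY
    rw [hF]
    have h1 := HasDerivAt.fun_sum (u := Finset.univ) fun i (_ : i ∈ Finset.univ) =>
      hh_deriv (a i) hY
    have h2 := HasDerivAt.fun_sum (u := Finset.univ) fun i (_ : i ∈ Finset.univ) =>
      hh_deriv (b i) hY
    exact h1.sub h2
  have hanti : AntitoneOn F (Set.Ioi 0) := by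
    refine antitoneOn_of_deriv_nonpos (convex_Ioi 0) ?_ ?_ ?_
    · exact fun Y hY => (hd Y hY).continuousAt.continuousWithinAt
    · rw [interior_Ioi]
      exact fun Y hY => (hd Y hY).differentiableAt.differentiableWithinAt
    · rw [interior_Ioi]
      intro Y hY
      rw [(hd Y hY).deriv, ← Finset.mul_sum, ← Finset.mul_sum, ← mul_sub]
      exact mul_nonpos_of_nonneg_of_nonpos (le_of_lt hY) (sub_nonpos.2 (h Y hY))
  have h0 : Tendsto F (𝓝[>] 0) (𝓝 (∑ i, Real.pi / 4 * (a i * |a i|) -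
      ∑ i, Real.pi / 4 * (b i * |b i|))) := by
    rw [hF]
    exact (tendsto_finsetSum _ fun i _ => hh_zero (a i)).sub
      (tendsto_finsetSum _ fun i _ => hh_zero (b i))
  have hinf : Tendsto F atTop (𝓝 0) := by
    have h1 := (tendsto_finsetSum Finset.univ fun i _ => hh_inf (a i)).sub
      (tendsto_finsetSum Finset.univ fun i _ => hh_inf (b i))
    simp only [Finset.sum_const_zero, sub_zero] at h1
    refine h1.congr fun Y => ?_
    rw [hF]
    simp only [Finset.sum_sub_distrib, ← Finset.sum_mul, ha, hb, zero_mul, sub_zero]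
  have h1 : F 1 ≤ ∑ i, Real.pi / 4 * (a i * |a i|) - ∑ i, Real.pi / 4 * (b i * |b i|) := by
    refine ge_of_tendsto h0 ?_
    have h2 : Set.Iio (1 : ℝ) ∈ 𝓝[>] (0 : ℝ) :=
      nhdsWithin_le_nhds (Iio_mem_nhds one_pos)
    filter_upwards [self_mem_nhdsWithin, h2] with Y hY hY1
    exact hanti hY (Set.mem_Ioi.2 one_pos) (le_of_lt hY1)
  have h2 : 0 ≤ F 1 := by
    refine le_of_tendsto hinf ?_
    filter_upwards [eventually_ge_atTop (1 : ℝ)] with Y hY
    exact hanti (Set.mem_Ioi.2 one_pos) (Set.mem_Ioi.2 (by linarith)) hY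
  rw [← Finset.mul_sum, ← Finset.mul_sum, ← mul_sub] at h1
  have h3 := Real.pi_pos
  have h4 : 0 ≤ Real.pi / 4 * (∑ i, a i * |a i| - ∑ i, b i * |b i|) := h2.trans h1
  have h5 := nonneg_of_mul_nonneg_right h4 (by positivity)
  linarith

/-- the product of the `y + a i * I` -/
noncomputable def FF {ι : Type*} [Fintype ι] (a : ι → ℝ) (y : ℝ) : ℂ :=
  ∏ i, ((y : ℂ) + a i * Complex.I)

theorem arg_one {l y : ℝ} (hy : 0 < y) :
    Complex.arg ((y : ℂ) + l * Complex.I) = Real.arctan (l / y) := by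
  have hre : ((y : ℂ) + l * Complex.I).re = y := by simp
  have him : ((y : ℂ) + l * Complex.I).im = l := by simp
  have h1 := Complex.tan_arg ((y : ℂ) + l * Complex.I)
  rw [hre, him] at h1
  have h2 := abs_lt.1 (Complex.abs_arg_lt_pi_div_two_iff.2 (Or.inl (by rw [hre]; exact hy)))
  rw [← h1, Real.arctan_tan h2.1 h2.2]

theorem arg_pos {z : ℂ} (hz : 0 < z.re) : Complex.arg z = Real.arctan (z.im / z.re) := by
  have h1 := Complex.tan_arg z
  have h2 := abs_lt.1 (Complex.abs_arg_lt_pi_div_two_iff.2 (Or.inl hz))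
  rw [← h1, Real.arctan_tan h2.1 h2.2]

theorem angle_eq {ι : Type*} [Fintype ι] (a : ι → ℝ) {y : ℝ} (hy : 0 < y) :
    ((∑ i, Real.arctan (a i / y) : ℝ) : Real.Angle) = (Complex.arg (FF a y) : Real.Angle) := by
  classical
  have hne : ∀ i, ((y : ℂ) + a i * Complex.I) ≠ 0 := by
    intro i h0
    have := congrArg Complex.re h0
    simp at this
    exact hy.ne' this
  have key : ∀ s : Finset ι, ((∑ i ∈ s, Real.arctan (a i / y) : ℝ) : Real.Angle) =
      (Complex.arg (∏ i ∈ s, ((y : ℂ) + a i * Complex.I)) : Real.Angle) := by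
    intro s
    induction s using Finset.induction_on with
    | empty => simp
    | insert i s hi ih =>
      rw [Finset.sum_insert hi, Finset.prod_insert hi,
        Complex.arg_mul_coe_angle (hne i) (Finset.prod_ne_zero_iff.2 fun j _ => hne j),
        Real.Angle.coe_add, ih, arg_one hy]
  exact key Finset.univ

theorem theta_eq {ι : Type*} [Fintype ι] (a : ι → ℝ)
    (hre : ∀ y : ℝ, 0 < y → 0 < (FF a y).re) {y : ℝ} (hy : 0 < y) :
    ∑ i, Real.arctan (a i / y) = Complex.arg (FF a y) := by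
  classical
  obtain ⟨G, hG⟩ : ∃ G : ℝ → ℝ, G = fun y => ∑ i, Real.arctan (a i / y) -
    Complex.arg (FF a y) := ⟨_, rfl⟩
  have hGm : ∀ y, 0 < y → ∃ m : ℤ, G y = 2 * Real.pi * m := by
    intro y hy
    obtain ⟨m, hm⟩ := Real.Angle.angle_eq_iff_two_pi_dvd_sub.1 (angle_eq a hy)
    exact ⟨m, by rw [hG]; exact hm⟩
  have hc : ContinuousOn G (Set.Ioi 0) := by
    rw [hG]
    intro y hy
    have hy' : y ≠ 0 := ne_of_gt hy
    refine ContinuousAt.continuousWithinAt (ContinuousAt.sub ?_ ?_)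
    · refine tendsto_finsetSum _ fun i _ => ?_
      exact Real.continuous_arctan.continuousAt.comp (continuousAt_const.div continuousAt_id hy')
    · have h1 : ContinuousAt (FF a) y := by
        unfold FF
        fun_prop
      exact (Complex.continuousAt_arg (Or.inl (hre y hy))).comp h1
  have h0 : Tendsto G atTop (𝓝 0) := by
    have h1 : Tendsto (fun y : ℝ => ∑ i, Real.arctan (a i / y)) atTop (𝓝 0) := by
      have h2 : ∀ i ∈ (Finset.univ : Finset ι),
          Tendsto (fun y : ℝ => Real.arctan (a i / y)) atTop (𝓝 (Real.arctan 0)) := fun i _ =>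
        (Real.continuous_arctan.tendsto 0).comp (tendsto_const_nhds.div_atTop tendsto_id)
      have h3 := tendsto_finsetSum _ h2
      simpa using h3
    have h2 : Tendsto (fun y : ℝ => ∏ i, ((1 : ℂ) + ((a i / y : ℝ) : ℂ) * Complex.I)) atTop
        (𝓝 1) := by
      have h3 : ∀ i ∈ (Finset.univ : Finset ι),
          Tendsto (fun y : ℝ => (1 : ℂ) + ((a i / y : ℝ) : ℂ) * Complex.I) atTop
            (𝓝 (1 + ((0 : ℝ) : ℂ) * Complex.I)) := by
        intro i _
        have h4 : Continuous fun x : ℝ => (1 : ℂ) + (x : ℂ) * Complex.I := by fun_prop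
        have h5 : Tendsto (fun y : ℝ => a i / y) atTop (𝓝 0) :=
          tendsto_const_nhds.div_atTop tendsto_id
        exact (h4.tendsto 0).comp h5
      have h4 := tendsto_finsetProd _ h3
      simpa using h4
    have h3 : Tendsto (fun y : ℝ => Complex.arg (FF a y)) atTop (𝓝 0) := by
      have h4 := (Complex.continuousAt_arg (x := 1) (Or.inl (by simp))).tendsto.comp h2
      rw [Complex.arg_one] at h4
      refine h4.congr' ?_
      filter_upwards [eventually_gt_atTop (0 : ℝ)] with y hy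
      have h5 : FF a y = (((y ^ Fintype.card ι : ℝ)) : ℂ) *
          ∏ i, ((1 : ℂ) + ((a i / y : ℝ) : ℂ) * Complex.I) := by
        unfold FF
        rw [← Finset.card_univ]
        push_cast
        rw [← Finset.prod_const, ← Finset.prod_mul_distrib]
        refine Finset.prod_congr rfl fun i _ => ?_
        have hy' : (y : ℂ) ≠ 0 := by exact_mod_cast hy.ne'
        field_simp
      rw [Function.comp_apply, h5, Complex.arg_real_mul _ (by positivity)]
    have h4 := h1.sub h3
    rw [sub_zero] at h4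
    rw [hG]
    exact h4
  have hmain : G y = 0 := by
    by_contra hne
    obtain ⟨m, hm⟩ := hGm y hy
    have hpi := Real.pi_pos
    have hm0 : m ≠ 0 := by
      rintro rfl
      apply hne
      rw [hm]
      simp
    have h1 : 2 * Real.pi ≤ |G y| := by
      rw [hm, abs_mul, abs_of_pos (by positivity : (0 : ℝ) < 2 * Real.pi)]
      have h2 : (1 : ℝ) ≤ |(m : ℝ)| := by exact_mod_cast Int.one_le_abs hm0
      nlinarith
    obtain ⟨Y, hYy, hY⟩ : ∃ Y, y ≤ Y ∧ |G Y| < Real.pi := by
      have h2 : ∀ᶠ Y in atTop, |G Y| < Real.pi := by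
        have h3 := h0.abs
        rw [abs_zero] at h3
        exact h3.eventually (Iio_mem_nhds hpi)
      obtain ⟨Y, h3, h4⟩ := (h2.and (eventually_ge_atTop y)).exists
      exact ⟨Y, h4, h3⟩
    have h2 : ContinuousOn (fun x => |G x|) (Set.Icc y Y) :=
      (hc.mono fun x hx => lt_of_lt_of_le hy hx.1).abs
    have h3 := intermediate_value_Icc' hYy h2
    obtain ⟨x, hx, hxe⟩ := h3 (Set.mem_Icc.2 ⟨hY.le, by linarith⟩ : Real.pi ∈ _)
    obtain ⟨m', hm'⟩ := hGm x (lt_of_lt_of_le hy hx.1)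
    have h4 : |G x| = Real.pi := hxe
    rw [hm', abs_mul, abs_of_pos (by positivity : (0 : ℝ) < 2 * Real.pi)] at h4
    have h5 : 2 * |(m' : ℝ)| = 1 := by
      have h6 : Real.pi * (2 * |(m' : ℝ)|) = Real.pi * 1 := by linarith
      exact mul_left_cancel₀ hpi.ne' h6
    have h6 : 2 * |m'| = 1 := by exact_mod_cast h5
    omega
  rw [hG] at hmain
  exact sub_eq_zero.1 hmain

/-- **Comparison with the help of the quotients.** -/
theorem compareF {ι κ : Type*} [Fintype ι] [Fintype κ] (a : ι → ℝ) (b : κ → ℝ)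
    (ha : ∑ i, a i = 0) (hb : ∑ i, b i = 0)
    (hra : ∀ y : ℝ, 0 < y → 0 < (FF a y).re) (hrb : ∀ y : ℝ, 0 < y → 0 < (FF b y).re)
    (h : ∀ y : ℝ, 0 < y → (FF a y).im / (FF a y).re ≤ (FF b y).im / (FF b y).re) :
    ∑ i, b i * |b i| ≤ ∑ i, a i * |a i| := by
  refine compare a b ha hb fun y hy => ?_
  rw [theta_eq a hra hy, theta_eq b hrb hy, arg_pos (hra y hy), arg_pos (hrb y hy)]
  exact Real.arctan_strictMono.monotone (h y hy)

end Pool.Agent.R391.SqE
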