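import Mathlib

/-!
Continuants, determinants of weighted paths and cycles, removal of leaves.
-/

set_option autoImplicit false

open Finset Matrix

namespace Pool.Agent.R391.SqE

/-- the continuant -/
def K {R : Type*} [CommRing R] : ℕ → (ℕ → R) → R
  | 0, _ => 1
  | 1, a => a 0
  | (m + 2), a => a 0 * K (m + 1) (fun i => a (i + 1)) + K m (fun i => a (i + 2))

/-- the matrix of a weighted path -/
noncomputable def Tm (m : ℕ) (a : ℕ → ℂ) : Matrix (Fin m) (Fin m) ℂ := Matrix.of fun i j =>
  if i.1 = j.1 then a i.1 else if i.1 + 1 = j.1 ∨ j.1 + 1 = i.1 then Complex.I else 0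

theorem tm_sub (m : ℕ) (a : ℕ → ℂ) :
    (Tm (m + 1) a).submatrix Fin.succ Fin.succ = Tm m (fun i => a (i + 1)) := by
  ext i j
  simp only [Tm, submatrix_apply, of_apply, Fin.val_succ, add_left_inj]

theorem det_Tm : ∀ (m : ℕ) (a : ℕ → ℂ), (Tm m a).det = K m a
  | 0, a => by simp [K]
  | 1, a => by simp [K, Tm]
  | (m + 2), a => by
    rw [det_succ_row_zero, Fin.sum_univ_succ, Fin.sum_univ_succ]
    have h0 : (Tm (m + 2) a).submatrix Fin.succ (Fin.succAbove 0) =
        Tm (m + 1) (fun i => a (i + 1)) := by
      rw [Fin.succAbove_zero]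
      exact tm_sub _ _
    have h1 : ((Tm (m + 2) a).submatrix Fin.succ (Fin.succAbove (Fin.succ 0))).det =
        Complex.I * (Tm m (fun i => a (i + 2))).det := by
      rw [det_succ_column_zero, Fin.sum_univ_succ, Finset.sum_eq_zero]
      · have h2 : ((Tm (m + 2) a).submatrix Fin.succ (Fin.succAbove (Fin.succ 0))).submatrix
            (Fin.succAbove 0) Fin.succ = Tm m (fun i => a (i + 2)) := by
          ext i j
          simp only [Tm, submatrix_apply, of_apply, Fin.succAbove_zero, Fin.val_succ,
            Fin.succ_succAbove_succ, add_left_inj]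
        rw [h2]
        have h3 : (Tm (m + 2) a).submatrix Fin.succ (Fin.succAbove (Fin.succ 0)) 0 0 =
            Complex.I := by
          simp [Tm, submatrix_apply, of_apply]
        rw [h3]
        simp
      · intro i _
        have h3 : (Tm (m + 2) a).submatrix Fin.succ (Fin.succAbove (Fin.succ 0)) (Fin.succ i) 0 =
            0 := by
          simp [Tm, submatrix_apply, of_apply]
        rw [h3]
        ring
    rw [Finset.sum_eq_zero, h0, h1, det_Tm (m + 1), det_Tm m]
    · have h3 : (Tm (m + 2) a) 0 0 = a 0 := by simp [Tm]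
      have h4 : (Tm (m + 2) a) 0 (Fin.succ 0) = Complex.I := by simp [Tm]
      rw [h3, h4]
      simp only [Fin.val_zero, pow_zero, one_mul, Fin.val_succ, zero_add, pow_one, add_zero, K]
      linear_combination (-(K m fun i => a (i + 2))) * Complex.I_sq
    · intro i _
      have h3 : (Tm (m + 2) a) 0 (Fin.succ (Fin.succ i)) = 0 := by
        simp [Tm]
      rw [h3]
      ring

/-- the matrix of a weighted cycle -/
noncomputable def Cm (m : ℕ) (a : ℕ → ℂ) : Matrix (Fin (m + 3)) (Fin (m + 3)) ℂ :=
  Matrix.of fun i j => if i.1 = j.1 then a i.1 else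
    if i.1 + 1 = j.1 ∨ j.1 + 1 = i.1 ∨ (i.1 = 0 ∧ j.1 = m + 2) ∨ (j.1 = 0 ∧ i.1 = m + 2)
      then Complex.I else 0

theorem det_Cm (m : ℕ) (a : ℕ → ℂ) : (Cm m a).det = K (m + 3) a + K (m + 1) (fun i => a (i + 1)) +
    (-1) ^ m * 2 * Complex.I ^ (m + 3) := by
  -- the three minors of the first row
  have hM0 : ((Cm m a).submatrix Fin.succ (Fin.succAbove 0)).det =
      K (m + 2) (fun i => a (i + 1)) := by
    rw [← det_Tm]
    congr 1
    ext i j
    have hi := i.2
    have hj := j.2
    simp only [Cm, Tm, submatrix_apply, of_apply, Fin.succAbove_zero, Fin.val_succ, add_left_inj,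
      Nat.add_eq_zero_iff, one_ne_zero, and_false, false_and, or_false]
  have hL : ∀ (A : Matrix (Fin (m + 1)) (Fin (m + 1)) ℂ), (∀ i, A i i = Complex.I) →
      (∀ i j, i < j → A i j = 0) → A.det = Complex.I ^ (m + 1) := by
    intro A h1 h2
    rw [det_of_isLowerTriangular A (fun i j hij => h2 i j hij), Finset.prod_congr rfl fun i _ => h1 i]
    simp
  have hU : ∀ (A : Matrix (Fin (m + 1)) (Fin (m + 1)) ℂ), (∀ i, A i i = Complex.I) →
      (∀ i j, j < i → A i j = 0) → A.det = Complex.I ^ (m + 1) := by
    intro A h1 h2
    rw [det_of_isUpperTriangular (fun i j hij => h2 i j hij), Finset.prod_congr rfl fun i _ => h1 i]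
    simp
  have hM1 : ((Cm m a).submatrix Fin.succ (Fin.succAbove (Fin.succ 0))).det =
      Complex.I * K (m + 1) (fun i => a (i + 2)) + (-1) ^ (m + 1) * Complex.I *
        Complex.I ^ (m + 1) := by
    rw [det_succ_column_zero, Fin.sum_univ_succ, Fin.sum_univ_castSucc, Finset.sum_eq_zero]
    · have h1 : (Cm m a).submatrix Fin.succ (Fin.succAbove (Fin.succ 0)) 0 0 = Complex.I := by
        simp [Cm]
      have h2 : (Cm m a).submatrix Fin.succ (Fin.succAbove (Fin.succ 0))
          (Fin.succ (Fin.last m)) 0 = Complex.I := by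
        simp [Cm]
      have h3 : (((Cm m a).submatrix Fin.succ (Fin.succAbove (Fin.succ 0))).submatrix
          (Fin.succAbove 0) Fin.succ).det = K (m + 1) (fun i => a (i + 2)) := by
        rw [← det_Tm]
        congr 1
        ext i j
        simp only [Cm, Tm, submatrix_apply, of_apply, Fin.succAbove_zero, Fin.val_succ,
          Fin.succ_succAbove_succ, add_left_inj, Nat.add_eq_zero_iff, one_ne_zero, and_false,
          false_and, or_false]
      have h4 : (((Cm m a).submatrix Fin.succ (Fin.succAbove (Fin.succ 0))).submatrix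
          (Fin.succAbove (Fin.succ (Fin.last m))) Fin.succ).det = Complex.I ^ (m + 1) := by
        apply hL
        · intro i
          have hi := i.2
          simp only [Cm, submatrix_apply, of_apply, Fin.succAbove_zero, Fin.val_succ,
            Fin.succ_succAbove_succ, Fin.succ_last, Fin.succAbove_last, Fin.val_castSucc]
          rw [if_neg (by omega), if_pos (Or.inl trivial)]
        · intro i j hij
          have hi := i.2
          have hj := j.2
          have hij' : i.1 < j.1 := hij
          simp only [Cm, submatrix_apply, of_apply, Fin.succAbove_zero, Fin.val_succ,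
            Fin.succ_succAbove_succ, Fin.succ_last, Fin.succAbove_last, Fin.val_castSucc]
          rw [if_neg (by omega), if_neg (by omega)]
      rw [h1, h2, h3, h4]
      simp
    · intro i _
      have hi := i.2
      have h1 : (Cm m a).submatrix Fin.succ (Fin.succAbove (Fin.succ 0))
          (Fin.succ (Fin.castSucc i)) 0 = 0 := by
        simp only [Cm, submatrix_apply, of_apply, Fin.val_succ, Fin.val_castSucc,
          Fin.succ_succAbove_zero, Fin.val_zero]
        rw [if_neg (by omega), if_neg (by omega)]
      rw [h1]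
      ring
  have hM2 : ((Cm m a).submatrix Fin.succ (Fin.succAbove (Fin.succ (Fin.succ
      (Fin.last m))))).det =
      Complex.I * Complex.I ^ (m + 1) + (-1) ^ (m + 1) * Complex.I *
        K (m + 1) (fun i => a (i + 1)) := by
    have hs : (Fin.succ (Fin.succ (Fin.last m))) = Fin.last (m + 2) := by
      simp
    rw [hs, Fin.succAbove_last, det_succ_column_zero, Fin.sum_univ_succ, Fin.sum_univ_castSucc,
      Finset.sum_eq_zero]
    · have h1 : (Cm m a).submatrix Fin.succ Fin.castSucc 0 0 = Complex.I := by
        simp [Cm]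
      have h2 : (Cm m a).submatrix Fin.succ Fin.castSucc (Fin.succ (Fin.last m)) 0 =
          Complex.I := by
        simp [Cm]
      have h3 : (((Cm m a).submatrix Fin.succ Fin.castSucc).submatrix
          (Fin.succAbove 0) Fin.succ).det = Complex.I ^ (m + 1) := by
        apply hU
        · intro i
          have hi := i.2
          simp only [Cm, submatrix_apply, of_apply, Fin.succAbove_zero, Fin.val_succ,
            Fin.val_castSucc]
          rw [if_neg (by omega), if_pos (Or.inr (Or.inl trivial))]
        · intro i j hij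
          have hi := i.2
          have hj := j.2
          have hij' : j.1 < i.1 := hij
          simp only [Cm, submatrix_apply, of_apply, Fin.succAbove_zero, Fin.val_succ,
            Fin.val_castSucc]
          rw [if_neg (by omega), if_neg (by omega)]
      have h4 : (((Cm m a).submatrix Fin.succ Fin.castSucc).submatrix
          (Fin.succAbove (Fin.succ (Fin.last m))) Fin.succ).det =
          K (m + 1) (fun i => a (i + 1)) := by
        rw [← det_Tm]
        congr 1
        ext i j
        have hi := i.2
        have hj := j.2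
        simp only [Cm, Tm, submatrix_apply, of_apply, Fin.val_succ,
          Fin.succ_last, Fin.succAbove_last, Fin.val_castSucc]
        by_cases h1 : i.1 = j.1
        · rw [if_pos (by omega), if_pos h1]
        · rw [if_neg (by omega), if_neg h1]
          by_cases h2 : i.1 + 1 = j.1 ∨ j.1 + 1 = i.1
          · rw [if_pos (by omega), if_pos h2]
          · rw [if_neg (by omega), if_neg h2]
      rw [h1, h2, h3, h4]
      simp
    · intro i _
      have hi := i.2
      have h1 : (Cm m a).submatrix Fin.succ Fin.castSucc (Fin.succ (Fin.castSucc i)) 0 = 0 := by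
        simp only [Cm, submatrix_apply, of_apply, Fin.val_succ, Fin.val_castSucc, Fin.val_zero]
        rw [if_neg (by omega), if_neg (by omega)]
      rw [h1]
      ring
  rw [det_succ_row_zero, Fin.sum_univ_succ, Fin.sum_univ_succ, Fin.sum_univ_castSucc,
    Finset.sum_eq_zero, hM0, hM1, hM2]
  · have h1 : (Cm m a) 0 0 = a 0 := by simp [Cm]
    have h2 : (Cm m a) 0 (Fin.succ 0) = Complex.I := by simp [Cm]
    have h3 : (Cm m a) 0 (Fin.succ (Fin.succ (Fin.last m))) = Complex.I := by simp [Cm]
    rw [h1, h2, h3]
    simp only [Fin.val_zero, pow_zero, one_mul, Fin.val_succ, zero_add, pow_one, Fin.val_last, K]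
    have h4 : ((-1 : ℂ) ^ m) * (-1) ^ m = 1 := by
      rw [← mul_pow]
      norm_num
    have h5 : (-1 : ℂ) ^ (m + 1) = -(-1) ^ m := by ring
    have h6 : (-1 : ℂ) ^ (m + 1 + 1) = (-1) ^ m := by ring
    have h7 : Complex.I ^ (m + 3) = -Complex.I ^ (m + 1) := by
      rw [pow_add _ _ 2, Complex.I_sq]
      ring
    rw [h5, h6, h7]
    have h8 := Complex.I_sq
    linear_combination (-(K (m + 1) fun i => a (i + 2)) + 2 * (-1) ^ m * Complex.I ^ (m + 1) - (-1) ^ m * (-1) ^ m * (K (m + 1) fun i => a (i + 1))) * h8 + (K (m + 1) fun i => a (i + 1)) * h4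
  · intro i _
    have hi := i.2
    have h3 : (Cm m a) 0 (Fin.succ (Fin.succ (Fin.castSucc i))) = 0 := by
      simp only [Cm, of_apply, Fin.val_succ, Fin.val_castSucc, Fin.val_zero]
      rw [if_neg (by omega), if_neg (by omega)]
    rw [h3]
    ring

end Pool.Agent.R391.SqE
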