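import Pool.Agent.R391.SqE.Det

/-!
Removal of leaves, bounds for continuants.
-/

set_option autoImplicit false

open Finset Matrix

namespace Pool.Agent.R391.SqE

/-- **Removal of a leaf.** -/
theorem det_leaf {V W : Type*} [Fintype V] [DecidableEq V] [Fintype W] [DecidableEq W]
    (M : Matrix V V ℂ) {v u : V} (huv : u ≠ v) {p : ℂ} (hp : p ≠ 0) (h1 : M v v = p)
    (h2 : M v u = Complex.I) (h3 : M u v = Complex.I) (h4 : ∀ x, x ≠ u → x ≠ v → M v x = 0)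
    (h5 : ∀ x, x ≠ u → x ≠ v → M x v = 0) (e : W ≃ {x // x ≠ v}) :
    M.det = p * (Matrix.of fun i j : W => M (e i) (e j) +
      if (e i).1 = u ∧ (e j).1 = u then 1 / p else 0).det := by
  obtain ⟨M', hM'⟩ : ∃ M' : Matrix V V ℂ, M' = M.updateRow u (M u + (-Complex.I / p) • M v) :=
    ⟨_, rfl⟩
  have hdet : M.det = M'.det := by
    rw [hM', det_updateRow_add_smul_self _ huv]
  have hz : ∀ i, i ≠ v → ∀ j, ¬ (j ≠ v) → M' i j = 0 := by
    intro i hi j hj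
    have hj' : j = v := not_not.1 hj
    subst hj'
    rw [hM']
    by_cases hiu : i = u
    · subst hiu
      rw [updateRow_self, Pi.add_apply, Pi.smul_apply, smul_eq_mul, h3, h1]
      field_simp
      ring
    · rw [updateRow_ne hiu]
      exact h5 i hiu hi
  rw [hdet, twoBlockTriangular_det' M' (fun x => x ≠ v) hz]
  have hA : (toSquareBlockProp M' fun x => ¬ (x ≠ v)).det = p := by
    have : Subsingleton {x : V // ¬ (x ≠ v)} := ⟨fun a b => Subtype.ext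
      ((not_not.1 a.2).trans (not_not.1 b.2).symm)⟩
    rw [det_eq_elem_of_subsingleton _ ⟨v, fun h => h rfl⟩]
    change M' v v = p
    rw [hM', updateRow_ne huv.symm, h1]
  have hB : (toSquareBlockProp M' fun x => x ≠ v).det = (Matrix.of fun i j : W =>
      M (e i) (e j) + if (e i).1 = u ∧ (e j).1 = u then 1 / p else 0).det := by
    rw [← det_submatrix_equiv_self e]
    congr 1
    ext i j
    change M' (e i).1 (e j).1 = M (e i).1 (e j).1 + if (e i).1 = u ∧ (e j).1 = u then 1 / p else 0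
    rw [hM']
    by_cases hiu : (e i).1 = u
    · rw [hiu, updateRow_self, Pi.add_apply, Pi.smul_apply, smul_eq_mul]
      by_cases hju : (e j).1 = u
      · rw [if_pos ⟨rfl, hju⟩, hju, h2]
        have := Complex.I_sq
        field_simp
        linear_combination (-1 : ℂ) * this
      · rw [if_neg fun h => hju h.2, h4 _ hju (e j).2]
        ring
    · rw [updateRow_ne hiu, if_neg fun h => hiu h.1, add_zero]
  rw [hA, hB, mul_comm]

theorem K_cast : ∀ (m : ℕ) (a : ℕ → ℝ), ((K m a : ℝ) : ℂ) = K m (fun i => (a i : ℂ))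
  | 0, a => by simp [K]
  | 1, a => by simp [K]
  | (m + 2), a => by
    rw [K, K]
    push_cast
    rw [K_cast (m + 1), K_cast m]

theorem K_mono : ∀ (m : ℕ) (b a : ℕ → ℝ), (∀ i, 0 ≤ b i) → (∀ i, b i ≤ a i) →
    0 ≤ K m b ∧ K m b ≤ K m a
  | 0, b, a => fun _ _ => by simp [K]
  | 1, b, a => fun h1 h2 => by
    rw [K, K]
    exact ⟨h1 0, h2 0⟩
  | (m + 2), b, a => fun h1 h2 => by
    obtain ⟨h3, h4⟩ := K_mono (m + 1) (fun i => b (i + 1)) (fun i => a (i + 1))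
      (fun i => h1 _) (fun i => h2 _)
    obtain ⟨h5, h6⟩ := K_mono m (fun i => b (i + 2)) (fun i => a (i + 2))
      (fun i => h1 _) (fun i => h2 _)
    rw [K, K]
    exact ⟨add_nonneg (mul_nonneg (h1 0) h3) h5,
      add_le_add (mul_le_mul (h2 0) h4 h3 ((h1 0).trans (h2 0))) h6⟩

/-- the main part of the determinant of a cycle -/
noncomputable def cyc (k : ℕ) (a : ℕ → ℝ) : ℝ := K k a + K (k - 2) (fun i => a (i + 1))

theorem K_step (m : ℕ) {y : ℝ} (hy : 0 ≤ y) : K m (fun _ => y) ≤ K (m + 2) (fun _ => y) := by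
  rw [K]
  have h := (K_mono (m + 1) (fun _ => y) (fun _ => y) (fun _ => hy) (fun _ => le_rfl)).1
  have := mul_nonneg hy h
  linarith

theorem K_steps (m : ℕ) {y : ℝ} (hy : 0 ≤ y) : ∀ s : ℕ, K m (fun _ => y) ≤
    K (m + 2 * s) (fun _ => y)
  | 0 => le_rfl
  | (s + 1) => (K_steps m hy s).trans (K_step (m + 2 * s) hy)

/-- the comparison of cycles of different length -/
theorem cyc_ge {k k0 : ℕ} (hk0 : 2 ≤ k0) (hk : k0 ≤ k) (hpar : ∃ s, k = k0 + 2 * s) {y : ℝ}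
    (hy : 0 ≤ y) {a : ℕ → ℝ} (ha : ∀ i, y ≤ a i) : cyc k0 (fun _ => y) ≤ cyc k a := by
  obtain ⟨s, rfl⟩ := hpar
  unfold cyc
  have h1 := (K_mono (k0 + 2 * s) (fun _ => y) a (fun _ => hy) ha).2
  have h2 := (K_mono (k0 + 2 * s - 2) (fun _ => y) (fun i => a (i + 1)) (fun _ => hy)
    (fun _ => ha _)).2
  have h3 := K_steps k0 hy s
  have h4 := K_steps (k0 - 2) hy s
  have h5 : k0 + 2 * s - 2 = k0 - 2 + 2 * s := by omega
  rw [h5] at h2
  rw [h5]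
  linarith

theorem cyc_three (a : ℕ → ℝ) : cyc 3 a = a 0 * a 1 * a 2 + a 0 + a 1 + a 2 := by
  simp only [cyc, K, Nat.reduceSub, zero_add, Nat.reduceAdd]
  ring

theorem cyc_five (a : ℕ → ℝ) : cyc 5 a = a 0 * a 1 * a 2 * a 3 * a 4 +
    (a 0 * a 1 * a 2 + a 1 * a 2 * a 3 + a 2 * a 3 * a 4 + a 3 * a 4 * a 0 + a 4 * a 0 * a 1) +
    (a 0 + a 1 + a 2 + a 3 + a 4) := by
  simp only [cyc, K, Nat.reduceSub, zero_add, Nat.reduceAdd]
  ring

theorem cyc_seven (y : ℝ) : cyc 7 (fun _ => y) = y ^ 7 + 7 * y ^ 5 + 14 * y ^ 3 + 7 * y := by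
  simp only [cyc, K, Nat.reduceSub]
  ring

theorem cyc_nine (y : ℝ) : cyc 9 (fun _ => y) =
    y ^ 9 + 9 * y ^ 7 + 27 * y ^ 5 + 30 * y ^ 3 + 9 * y := by
  simp only [cyc, K, Nat.reduceSub]
  ring

theorem cyc_three_ge {y : ℝ} (hy : 0 ≤ y) {a : ℕ → ℝ} (ha : ∀ i, y ≤ a i) {φ : ℝ}
    (hφ : φ ≤ ∑ i ∈ range 3, (a i - y)) : y ^ 3 + 3 * y + φ * (y ^ 2 + 1) ≤ cyc 3 a := by
  rw [cyc_three]
  simp only [Finset.sum_range_succ, Finset.sum_range_zero, zero_add] at hφ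
  obtain ⟨f0, h0⟩ : ∃ f0, f0 = a 0 - y := ⟨_, rfl⟩
  obtain ⟨f1, h1⟩ : ∃ f1, f1 = a 1 - y := ⟨_, rfl⟩
  obtain ⟨f2, h2⟩ : ∃ f2, f2 = a 2 - y := ⟨_, rfl⟩
  have p0 : 0 ≤ f0 := by rw [h0]; exact sub_nonneg.2 (ha 0)
  have p1 : 0 ≤ f1 := by rw [h1]; exact sub_nonneg.2 (ha 1)
  have p2 : 0 ≤ f2 := by rw [h2]; exact sub_nonneg.2 (ha 2)
  rw [← h0, ← h1, ← h2] at hφ
  have e0 : a 0 = y + f0 := by rw [h0]; ring
  have e1 : a 1 = y + f1 := by rw [h1]; ring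
  have e2 : a 2 = y + f2 := by rw [h2]; ring
  rw [e0, e1, e2]
  have h3 : φ * (y ^ 2 + 1) ≤ (f0 + f1 + f2) * (y ^ 2 + 1) :=
    mul_le_mul_of_nonneg_right hφ (by positivity)
  have h4 : 0 ≤ (y + f0) * (y + f1) * (y + f2) + (y + f0) + (y + f1) + (y + f2) -
      (y ^ 3 + 3 * y + (f0 + f1 + f2) * (y ^ 2 + 1)) := by
    ring_nf
    positivity
  linarith

theorem cyc_five_ge {y : ℝ} (hy : 0 ≤ y) {a : ℕ → ℝ} (ha : ∀ i, y ≤ a i) {φ : ℝ}
    (hφ : φ ≤ ∑ i ∈ range 5, (a i - y)) :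
    y ^ 5 + 5 * y ^ 3 + 5 * y + φ * (y ^ 4 + 3 * y ^ 2 + 1) ≤ cyc 5 a := by
  rw [cyc_five]
  simp only [Finset.sum_range_succ, Finset.sum_range_zero, zero_add] at hφ
  obtain ⟨f0, h0⟩ : ∃ f0, f0 = a 0 - y := ⟨_, rfl⟩
  obtain ⟨f1, h1⟩ : ∃ f1, f1 = a 1 - y := ⟨_, rfl⟩
  obtain ⟨f2, h2⟩ : ∃ f2, f2 = a 2 - y := ⟨_, rfl⟩
  obtain ⟨f3, h3⟩ : ∃ f3, f3 = a 3 - y := ⟨_, rfl⟩
  obtain ⟨f4, h4⟩ : ∃ f4, f4 = a 4 - y := ⟨_, rfl⟩
  have p0 : 0 ≤ f0 := by rw [h0]; exact sub_nonneg.2 (ha 0)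
  have p1 : 0 ≤ f1 := by rw [h1]; exact sub_nonneg.2 (ha 1)
  have p2 : 0 ≤ f2 := by rw [h2]; exact sub_nonneg.2 (ha 2)
  have p3 : 0 ≤ f3 := by rw [h3]; exact sub_nonneg.2 (ha 3)
  have p4 : 0 ≤ f4 := by rw [h4]; exact sub_nonneg.2 (ha 4)
  rw [← h0, ← h1, ← h2, ← h3, ← h4] at hφ
  have e0 : a 0 = y + f0 := by rw [h0]; ring
  have e1 : a 1 = y + f1 := by rw [h1]; ring
  have e2 : a 2 = y + f2 := by rw [h2]; ring
  have e3 : a 3 = y + f3 := by rw [h3]; ring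
  have e4 : a 4 = y + f4 := by rw [h4]; ring
  rw [e0, e1, e2, e3, e4]
  have h5 : φ * (y ^ 4 + 3 * y ^ 2 + 1) ≤ (f0 + f1 + f2 + f3 + f4) * (y ^ 4 + 3 * y ^ 2 + 1) :=
    mul_le_mul_of_nonneg_right hφ (by positivity)
  have h6 : 0 ≤ ((y + f0) * (y + f1) * (y + f2) * (y + f3) * (y + f4) +
      ((y + f0) * (y + f1) * (y + f2) + (y + f1) * (y + f2) * (y + f3) +
        (y + f2) * (y + f3) * (y + f4) + (y + f3) * (y + f4) * (y + f0) +
        (y + f4) * (y + f0) * (y + f1)) +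
      ((y + f0) + (y + f1) + (y + f2) + (y + f3) + (y + f4))) -
      (y ^ 5 + 5 * y ^ 3 + 5 * y + (f0 + f1 + f2 + f3 + f4) * (y ^ 4 + 3 * y ^ 2 + 1)) := by
    ring_nf
    positivity
  linarith

theorem cyc_pos {k : ℕ} {y : ℝ} (hy : 0 < y) {a : ℕ → ℝ} (ha : ∀ i, y ≤ a i) (hk : 3 ≤ k)
    (hodd : Odd k) : 0 < cyc k a := by
  obtain ⟨s, hs⟩ := hodd
  have h1 := cyc_ge (k0 := 3) (by norm_num) hk ⟨s - 1, by omega⟩ hy.le ha
  rw [cyc_three] at h1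
  have h2 : 0 < y * y * y + y + y + y := by positivity
  linarith

end Pool.Agent.R391.SqE
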