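import Pool.Agent.R391.SqE.Det2

/-!
The determinant of a weighted unicyclic graph.
-/

set_option autoImplicit false

open Finset Matrix SimpleGraph

namespace Pool.Agent.R391.SqE

universe u

/-- there is a proper colouring with two colours -/
def Bip {V : Type u} (G : SimpleGraph V) : Prop := ∃ c : V → Bool, ∀ a b, G.Adj a b → c a ≠ c b

theorem bip_colorable {V : Type u} {G : SimpleGraph V} (h : Bip G) : G.Colorable 2 := by
  obtain ⟨c, hc⟩ := h
  have h1 := (Coloring.mk (G := G) c fun {v w} h => hc v w h).colorable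
  simpa using h1

/-- the weighted matrix of a graph -/
noncomputable def GM {V : Type u} [DecidableEq V] (G : SimpleGraph V) [DecidableRel G.Adj]
    (w : V → ℝ) : Matrix V V ℂ :=
  Matrix.of fun i j => if i = j then (w i : ℂ) else if G.Adj i j then Complex.I else 0

section

variable {V : Type u} [Fintype V] [DecidableEq V] (G : SimpleGraph V) [DecidableRel G.Adj]

/-- an enumeration of a connected graph with all degrees equal to two -/
theorem enum (hc : G.Connected) (hd : ∀ v, G.degree v = 2) :
    ∃ (m : ℕ) (E : Fin (m + 3) ≃ V), ∀ i j : Fin (m + 3), G.Adj (E i) (E j) ↔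
      (i.1 + 1 = j.1 ∨ j.1 + 1 = i.1 ∨ (i.1 = 0 ∧ j.1 = m + 2) ∨ (j.1 = 0 ∧ i.1 = m + 2)) := by
  have hcyc : G.IsCycles := by
    intro v _
    rw [Set.ncard_eq_toFinset_card', ← hd v]
    rfl
  obtain ⟨v0⟩ := hc.nonempty
  have hn : (G.neighborSet v0).Nonempty := by
    have h1 : 0 < G.degree v0 := by rw [hd]; norm_num
    obtain ⟨x, hx⟩ := (G.degree_pos_iff_exists_adj v0).1 h1
    exact ⟨x, hx⟩
  obtain ⟨p, hp, hverts⟩ := hcyc.exists_cycle_toSubgraph_verts_eq_connectedComponentSupp
    (c := G.connectedComponentMk v0) (v := v0) rfl hn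
  have h3 := hp.three_le_length
  obtain ⟨m, hm⟩ : ∃ m, p.length = m + 3 := ⟨p.length - 3, by omega⟩
  have hinj : ∀ i j, i < m + 3 → j < m + 3 → p.getVert i = p.getVert j → i = j := by
    intro i j hi hj hij
    refine hp.getVert_injOn' ?_ ?_ hij
    · change i ≤ p.length - 1
      omega
    · change j ≤ p.length - 1
      omega
  have hlast : p.getVert (m + 3) = p.getVert 0 := by
    rw [← hm, Walk.getVert_length, Walk.getVert_zero]
  have hsurj : ∀ x, ∃ i, i < m + 3 ∧ p.getVert i = x := by
    intro x
    have hx : x ∈ (G.connectedComponentMk v0).supp :=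
      ConnectedComponent.sound (hc.preconnected x v0)
    rw [← hverts, Walk.mem_verts_toSubgraph, Walk.mem_support_iff_exists_getVert] at hx
    obtain ⟨i, hi, hil⟩ := hx
    by_cases h : i < m + 3
    · exact ⟨i, h, hi⟩
    · have : i = m + 3 := by omega
      subst this
      exact ⟨0, by omega, by rw [← hlast, hi]⟩
  have hbij : Function.Bijective fun i : Fin (m + 3) => p.getVert i.1 := by
    constructor
    · intro i j hij
      exact Fin.ext (hinj _ _ i.2 j.2 hij)
    · intro x
      obtain ⟨i, hi, hix⟩ := hsurj x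
      exact ⟨⟨i, hi⟩, hix⟩
  refine ⟨m, Equiv.ofBijective _ hbij, fun i j => ?_⟩
  change G.Adj (p.getVert i.1) (p.getVert j.1) ↔ _
  have hnx : ∀ i, i < m + 3 → G.Adj (p.getVert i) (p.getVert (if i = m + 2 then 0 else i + 1)) := by
    intro i hi
    have h1 := p.adj_getVert_succ (i := i) (by omega)
    split_ifs with h
    · subst h
      rw [← hlast]
      exact h1
    · exact h1
  have hpv : ∀ i, i < m + 3 → G.Adj (p.getVert i) (p.getVert (if i = 0 then m + 2 else i - 1)) := by
    intro i hi
    split_ifs with h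
    · subst h
      have h1 := p.adj_getVert_succ (i := m + 2) (by omega)
      rw [hlast] at h1
      exact h1.symm
    · have h1 := p.adj_getVert_succ (i := i - 1) (by omega)
      rw [show i - 1 + 1 = i by omega] at h1
      exact h1.symm
  have hi := i.2
  have hj := j.2
  constructor
  · intro hadj
    have hne : p.getVert (if i.1 = m + 2 then 0 else i.1 + 1) ≠
        p.getVert (if i.1 = 0 then m + 2 else i.1 - 1) := by
      intro h
      have := hinj _ _ (by split_ifs <;> omega) (by split_ifs <;> omega) h
      split_ifs at this <;> omega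
    have hsub : ({p.getVert (if i.1 = m + 2 then 0 else i.1 + 1),
        p.getVert (if i.1 = 0 then m + 2 else i.1 - 1)} : Finset V) =
        G.neighborFinset (p.getVert i.1) := by
      apply Finset.eq_of_subset_of_card_le
      · intro x hx
        rw [Finset.mem_insert, Finset.mem_singleton] at hx
        rw [mem_neighborFinset]
        rcases hx with rfl | rfl
        · exact hnx _ hi
        · exact hpv _ hi
      · rw [Finset.card_pair hne]
        exact (hd _).le
    have hjm : p.getVert j.1 ∈ G.neighborFinset (p.getVert i.1) := by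
      rw [mem_neighborFinset]
      exact hadj
    rw [← hsub, Finset.mem_insert, Finset.mem_singleton] at hjm
    rcases hjm with h | h
    · have := hinj _ _ hj (by split_ifs <;> omega) h
      split_ifs at this <;> omega
    · have := hinj _ _ hj (by split_ifs <;> omega) h
      split_ifs at this <;> omega
  · intro h
    have h1 := hnx i.1 hi
    have h2 := hpv i.1 hi
    rcases h with h | h | h | h
    · rw [if_neg (by omega), h] at h1
      exact h1
    · rw [if_neg (by omega), ← h, Nat.add_sub_cancel] at h2
      rw [← h]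
      exact h2
    · rw [if_pos h.1, ← h.2] at h2
      exact h2
    · rw [if_pos h.2, ← h.1] at h1
      exact h1

/-- the base of the induction -/
theorem base (hc : G.Connected) (hd : ∀ v, G.degree v = 2) (hcol : ¬ Bip G) {w : V → ℝ} {y : ℝ}
    (hw : ∀ v, y ≤ w v) : ∃ k, Odd k ∧ 3 ≤ k ∧ Fintype.card V = k ∧ ∃ a : ℕ → ℝ,
      (∀ i, y ≤ a i) ∧ ∑ i ∈ range k, (a i - y) = ∑ v, (w v - y) ∧
      (GM G w).det = (cyc k a : ℂ) + 2 * Complex.I ^ k := by
  obtain ⟨m, E, hE⟩ := enum G hc hd
  have hodd : ¬ Even (m + 3) := by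
    intro hev
    apply hcol
    refine ⟨fun x => decide ((E.symm x).1 % 2 = 0), fun a b hab => ?_⟩
    obtain ⟨i, rfl⟩ := E.surjective a
    obtain ⟨j, rfl⟩ := E.surjective b
    have h1 := (hE i j).1 hab
    have h2 := Nat.even_iff.1 hev
    simp only [Equiv.symm_apply_apply, ne_eq, decide_eq_decide]
    intro h3
    rcases h1 with h | h | h | h <;> omega
  have hodd' : Odd (m + 3) := Nat.not_even_iff_odd.1 hodd
  obtain ⟨a, ha⟩ : ∃ a : ℕ → ℝ, a = fun i => if h : i < m + 3 then w (E ⟨i, h⟩) else y :=
    ⟨_, rfl⟩
  have haE : ∀ i : Fin (m + 3), a i.1 = w (E i) := by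
    intro i
    rw [ha]
    simp [i.2]
  refine ⟨m + 3, hodd', by omega, ?_, a, ?_, ?_, ?_⟩
  · rw [← Fintype.card_congr E, Fintype.card_fin]
  · intro i
    rw [ha]
    beta_reduce
    split_ifs
    · exact hw _
    · exact le_rfl
  · rw [Finset.sum_range, ← E.sum_comp]
    exact Finset.sum_congr rfl fun i _ => by rw [haE]
  · rw [← det_submatrix_equiv_self E]
    have h1 : (GM G w).submatrix E E = Cm m (fun i => (a i : ℂ)) := by
      ext i j
      simp only [GM, Cm, submatrix_apply, of_apply, E.apply_eq_iff_eq, hE i j, haE i]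
      by_cases h : i = j
      · subst h
        simp
      · have h' : i.1 ≠ j.1 := fun h2 => h (Fin.ext h2)
        rw [if_neg h, if_neg h']
    rw [h1, det_Cm]
    have h2 : Even m := by
      have := Nat.odd_iff.1 hodd'
      rw [Nat.even_iff]
      omega
    rw [h2.neg_one_pow, one_mul, cyc]
    push_cast
    rw [K_cast, K_cast]

end

theorem sum_compl {V : Type u} [Fintype V] [DecidableEq V] {R : Type} [AddCommMonoid R] (v : V)
    (e : ↥({v}ᶜ : Set V) ≃ {x // x ≠ v}) (he : ∀ x, (e x).1 = x.1) (f : V → R) :
    ∑ x, f x = f v + ∑ x : ↥({v}ᶜ : Set V), f x.1 := by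
  rw [Fintype.sum_eq_add_sum_subtype_ne f v, ← e.sum_comp]
  simp only [he]

/-- **The determinant of a weighted unicyclic graph.** -/
theorem main_ind {y : ℝ} (hy : 0 < y) (n : ℕ) : ∀ (N : ℕ) (V : Type u) [Fintype V] [DecidableEq V]
    (G : SimpleGraph V) [DecidableRel G.Adj] (w : V → ℝ) (t : V → ℕ), Fintype.card V = N →
    G.Connected → G.edgeFinset.card = N → ¬ Bip G → (∀ v, y ≤ w v) →
    (∀ v, w v ≤ y + (t v : ℝ) / y) → (∑ v, t v) + N = n →
    (N < n → y / (y ^ 2 + ((n : ℝ) - N - 1)) ≤ ∑ v, (w v - y)) →
    ∃ k, Odd k ∧ 3 ≤ k ∧ k ≤ n ∧ ∃ (P : ℝ) (a : ℕ → ℝ), 0 < P ∧ (∀ i, y ≤ a i) ∧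
      (k < n → y / (y ^ 2 + ((n : ℝ) - k - 1)) ≤ ∑ i ∈ range k, (a i - y)) ∧
      (GM G w).det = (P : ℂ) * ((cyc k a : ℂ) + 2 * Complex.I ^ k) := by
  intro N
  induction N with
  | zero =>
    intro V _ _ G _ w t hcard hc
    have := hc.nonempty
    have h1 := Fintype.card_pos (α := V)
    omega
  | succ N ih =>
    intro V _ _ G _ w t hcard hc hE hcol hw1 hw2 ht hL
    by_cases h : ∃ v, G.degree v = 1
    · obtain ⟨v, hv⟩ := h
      obtain ⟨u, huv, huniq⟩ := degree_eq_one_iff_existsUnique_adj.1 hv
      have huv' : u ≠ v := huv.ne.symm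
      have hwv : 0 < w v := hy.trans_le (hw1 v)
      have hadj : ∀ x, x ≠ u → ¬ G.Adj v x := fun x hx h => hx (huniq x h)
      obtain ⟨e, he⟩ : ∃ e : ↥({v}ᶜ : Set V) ≃ {x // x ≠ v}, ∀ x, (e x).1 = x.1 :=
        ⟨Equiv.subtypeEquivRight fun x => by simp, fun x => rfl⟩
      have huc : u ∈ ({v}ᶜ : Set V) := by simpa using huv'
      obtain ⟨w', hw'⟩ : ∃ w' : ↥({v}ᶜ : Set V) → ℝ,
          w' = fun x => w x.1 + if x.1 = u then 1 / w v else 0 := ⟨_, rfl⟩
      obtain ⟨t', ht'⟩ : ∃ t' : ↥({v}ᶜ : Set V) → ℕ,
          t' = fun x => t x.1 + if x.1 = u then t v + 1 else 0 := ⟨_, rfl⟩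
      have hcard' : Fintype.card ↥({v}ᶜ : Set V) = N := by
        have h1 := sum_compl v e he (fun _ => (1 : ℕ))
        simp only [Finset.sum_const, Finset.card_univ, smul_eq_mul, mul_one] at h1
        omega
      have hc' := hc.induce_compl_singleton_of_degree_eq_one hv
      have hE' : (G.induce ({v}ᶜ : Set V)).edgeFinset.card = N := by
        rw [card_edgeFinset_induce_compl_singleton, card_edgeFinset_deleteIncidenceSet, hE, hv]
        rfl
      have hcol' : ¬ Bip (G.induce ({v}ᶜ : Set V)) := by
        rintro ⟨c, hc1⟩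
        apply hcol
        refine ⟨fun x => if h : x ∈ ({v}ᶜ : Set V) then c ⟨x, h⟩ else !(c ⟨u, huc⟩), ?_⟩
        intro a b hab
        by_cases ha : a ∈ ({v}ᶜ : Set V)
        · by_cases hb : b ∈ ({v}ᶜ : Set V)
          · simp only [dif_pos ha, dif_pos hb]
            exact hc1 ⟨a, ha⟩ ⟨b, hb⟩ hab
          · have hb' : b = v := by simpa using hb
            have hau : a = u := huniq a (by rw [← hb']; exact hab.symm)
            simp only [dif_neg hb, hau]
            simp [huv']
        · have ha' : a = v := by simpa using ha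
          have hbu : b = u := huniq b (by rw [← ha']; exact hab)
          have hb : b ∈ ({v}ᶜ : Set V) := by rw [hbu]; exact huc
          simp only [dif_neg ha, hbu]
          simp [huv']
      have hw1' : ∀ x, y ≤ w' x := by
        intro x
        rw [hw']
        beta_reduce
        have h1 := hw1 x.1
        have h2 : 0 < 1 / w v := one_div_pos.2 hwv
        split_ifs <;> linarith
      have hw2' : ∀ x, w' x ≤ y + (t' x : ℝ) / y := by
        intro x
        rw [hw', ht']
        beta_reduce
        have h1 := hw2 x.1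
        have h2 : 1 / w v ≤ 1 / y := one_div_le_one_div_of_le hy (hw1 v)
        have h3 : (0 : ℝ) ≤ t v / y := by positivity
        split_ifs
        · push_cast
          have h4 : ((t x.1 : ℝ) + (t v + 1)) / y = t x.1 / y + t v / y + 1 / y := by ring
          rw [h4]
          linarith
        · push_cast
          rw [add_zero, add_zero]
          exact h1
      have hsumt : ∑ x, t x = t v + ∑ x : ↥({v}ᶜ : Set V), t x.1 := sum_compl v e he t
      have hind : ∀ (R : Type) [AddCommMonoid R] (c : R),
          ∑ x : ↥({v}ᶜ : Set V), (if x.1 = u then c else 0) = c := by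
        intro R _ c
        rw [Finset.sum_eq_single_of_mem (⟨u, huc⟩ : ↥({v}ᶜ : Set V)) (Finset.mem_univ _)]
        · simp
        · intro b _ hb
          rw [if_neg]
          intro h
          exact hb (Subtype.ext h)
      have ht1 : (∑ x, t' x) + N = n := by
        rw [ht']
        simp only [Finset.sum_add_distrib]
        rw [hind ℕ (t v + 1)]
        omega
      have hL' : N < n → y / (y ^ 2 + ((n : ℝ) - N - 1)) ≤ ∑ x, (w' x - y) := by
        intro hNn
        have h1 : (t v : ℝ) ≤ (n : ℝ) - N - 1 := by
          have h2 : t v + N + 1 ≤ n := by omega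
          have h3 : ((t v + N + 1 : ℕ) : ℝ) ≤ n := by exact_mod_cast h2
          push_cast at h3
          linarith
        have h2 : y / (y ^ 2 + ((n : ℝ) - N - 1)) ≤ 1 / w v := by
          have h3 : (0 : ℝ) ≤ t v := Nat.cast_nonneg _
          have h4 : w v ≤ (y ^ 2 + ((n : ℝ) - N - 1)) / y := by
            refine (hw2 v).trans ?_
            rw [le_div_iff₀ hy]
            have h5 : (y + (t v : ℝ) / y) * y = y ^ 2 + t v := by
              field_simp
            rw [h5]
            linarith
          have h5 : 0 < y ^ 2 + ((n : ℝ) - N - 1) := by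
            have := sq_pos_of_pos hy
            linarith
          rw [div_le_div_iff₀ h5 hwv]
          rw [le_div_iff₀ hy] at h4
          linarith
        refine h2.trans ?_
        have h3 : ∑ x, (w' x - y) = ∑ x : ↥({v}ᶜ : Set V), (w x.1 - y) + 1 / w v := by
          rw [← hind ℝ (1 / w v), ← Finset.sum_add_distrib, hw']
          exact Finset.sum_congr rfl fun x _ => by ring
        rw [h3]
        have h4 : 0 ≤ ∑ x : ↥({v}ᶜ : Set V), (w x.1 - y) :=
          Finset.sum_nonneg fun x _ => sub_nonneg.2 (hw1 _)
        linarith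
      obtain ⟨k, hk1, hk2, hk3, P, a, hP, ha, hka, hdet⟩ :=
        ih ↥({v}ᶜ : Set V) (G.induce ({v}ᶜ : Set V)) w' t' hcard' hc' hE' hcol' hw1' hw2' ht1 hL'
      refine ⟨k, hk1, hk2, hk3, w v * P, a, mul_pos hwv hP, ha, hka, ?_⟩
      have hpc : (w v : ℂ) ≠ 0 := by exact_mod_cast hwv.ne'
      have hleaf := det_leaf (GM G w) huv' hpc (by simp [GM])
        (by simp [GM, huv'.symm, huv]) (by simp [GM, huv', huv.symm])
        (fun x hx1 hx2 => by simp [GM, hx2.symm, hadj x hx1])
        (fun x hx1 hx2 => by
          have : ¬ G.Adj x v := fun h => hadj x hx1 h.symm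
          simp [GM, hx2, this]) e
      rw [hleaf]
      have hmat : (Matrix.of fun i j : ↥({v}ᶜ : Set V) => GM G w (e i) (e j) +
          if (e i).1 = u ∧ (e j).1 = u then 1 / (w v : ℂ) else 0) =
          GM (G.induce ({v}ᶜ : Set V)) w' := by
        ext i j
        simp only [GM, of_apply, he, hw', comap_adj, Function.Embedding.coe_subtype]
        by_cases hij : i = j
        · subst hij
          by_cases hiu : i.1 = u
          · simp [hiu]
          · simp [hiu]
        · have hij' : i.1 ≠ j.1 := fun h => hij (Subtype.ext h)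
          have hn : ¬ (i.1 = u ∧ j.1 = u) := fun h => hij' (h.1.trans h.2.symm)
          rw [if_neg hij', if_neg hij, if_neg hn, add_zero]
      rw [hmat, hdet]
      push_cast
      ring
    · push Not at h
      have hpos : ∀ v, 0 < G.degree v := by
        have hnt : Nontrivial V := by
          by_contra hcon
          rw [not_nontrivial_iff_subsingleton] at hcon
          have h1 : ∀ v, G.degree v = 0 := by
            intro v
            rw [← card_neighborFinset_eq_degree, Finset.card_eq_zero,
              Finset.eq_empty_iff_forall_notMem]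
            intro x hx
            rw [mem_neighborFinset] at hx
            exact hx.ne (Subsingleton.elim _ _)
          have h2 := G.sum_degrees_eq_twice_card_edges
          simp only [h1, Finset.sum_const_zero] at h2
          omega
        exact fun v => hc.preconnected.degree_pos_of_nontrivial v
      have h2 : ∀ v, 2 ≤ G.degree v := fun v => by
        have := hpos v
        have := h v
        omega
      have hd : ∀ v, G.degree v = 2 := by
        have h3 : ∑ v, G.degree v = ∑ v : V, 2 := by
          rw [G.sum_degrees_eq_twice_card_edges, hE, Finset.sum_const, Finset.card_univ, hcard,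
            smul_eq_mul, mul_comm]
        have h4 := (Finset.sum_eq_sum_iff_of_le fun v _ => h2 v).1 h3.symm
        intro v
        exact (h4 v (Finset.mem_univ _)).symm
      obtain ⟨k, hk1, hk2, hk3, a, ha1, ha2, hdet⟩ := base G hc hd hcol hw1
      have hkN : k = N + 1 := by omega
      refine ⟨k, hk1, hk2, by omega, 1, a, one_pos, ha1, ?_, ?_⟩
      · rw [ha2, hkN]
        exact hL
      · rw [hdet]
        push_cast
        ring

end Pool.Agent.R391.SqE
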