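import Pool.Agent.R391.SqE.Det2

/-!
The determinant of the weighted graphs `H^k_n`.
-/

set_option autoImplicit false

open Finset Matrix

namespace Pool.Agent.R391.SqE

/-- the edges of `H^k_n` -/
def hr (k i j : ℕ) : Prop :=
  (i + 1 = j ∧ j < k) ∨ (i = 0 ∧ j = k - 1) ∨ (i = 0 ∧ j = k) ∨ (i = k ∧ k < j)

open Classical in
/-- the weighted matrix of `H^k_n` -/
noncomputable def HM (k n : ℕ) (z y : ℝ) : Matrix (Fin n) (Fin n) ℂ := Matrix.of fun i j =>
  if i.1 = j.1 then (if i.1 = k then (z : ℂ) else (y : ℂ)) else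
    if hr k i.1 j.1 ∨ hr k j.1 i.1 then Complex.I else 0

theorem HM_succ {k n : ℕ} (hk : 3 ≤ k) (hkn : k < n) (z : ℝ) {y : ℝ} (hy : 0 < y) :
    (HM k (n + 1) z y).det = y * (HM k n (z + 1 / y) y).det := by
  classical
  have hyc : (y : ℂ) ≠ 0 := by exact_mod_cast hy.ne'
  rw [det_leaf (HM k (n + 1) z y) (v := Fin.last n) (u := ⟨k, by omega⟩) (p := (y : ℂ)) ?_ hyc
    ?_ ?_ ?_ ?_ ?_ (finSuccAboveEquiv (Fin.last n))]
  · congr 2
    ext i j
    have hi := i.2
    have hj := j.2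
    simp only [HM, of_apply, finSuccAboveEquiv_apply, Fin.succAbove_last, Fin.val_castSucc,
      Fin.ext_iff]
    by_cases hij : i.1 = j.1
    · rw [if_pos hij, if_pos hij]
      by_cases hik : i.1 = k
      · have hjk : j.1 = k := hij ▸ hik
        rw [if_pos hik, if_pos ⟨hik, hjk⟩, if_pos hik]
        push_cast
        rfl
      · rw [if_neg hik, if_neg fun h => hik h.1, if_neg hik, add_zero]
    · rw [if_neg hij, if_neg hij]
      have : ¬ (i.1 = k ∧ j.1 = k) := fun h => hij (h.1.trans h.2.symm)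
      rw [if_neg this, add_zero]
  · intro h
    have := congrArg Fin.val h
    simp at this
    omega
  · simp only [HM, of_apply, Fin.val_last, if_true]
    rw [if_neg (by omega)]
  · simp only [HM, of_apply, Fin.val_last]
    rw [if_neg (by omega), if_pos]
    unfold hr
    omega
  · simp only [HM, of_apply, Fin.val_last]
    rw [if_neg (by omega), if_pos]
    unfold hr
    omega
  · intro x hx1 hx2
    have h1 : x.1 ≠ k := fun h => hx1 (Fin.ext h)
    have h2 : x.1 ≠ n := fun h => hx2 (Fin.ext h)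
    have h3 := x.2
    simp only [HM, of_apply, Fin.val_last]
    rw [if_neg (by omega), if_neg]
    unfold hr
    omega
  · intro x hx1 hx2
    have h1 : x.1 ≠ k := fun h => hx1 (Fin.ext h)
    have h2 : x.1 ≠ n := fun h => hx2 (Fin.ext h)
    have h3 := x.2
    simp only [HM, of_apply, Fin.val_last]
    rw [if_neg (by omega), if_neg]
    unfold hr
    omega

/-- the weights of the cycle -/
noncomputable def aH (z y : ℝ) (i : ℕ) : ℝ := if i = 0 then y + 1 / z else y

theorem HM_base (m : ℕ) {z : ℝ} (hz : 0 < z) (y : ℝ) :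
    (HM (m + 3) (m + 3 + 1) z y).det = z * (Cm m fun i => (aH z y i : ℂ)).det := by
  classical
  have hzc : (z : ℂ) ≠ 0 := by exact_mod_cast hz.ne'
  rw [det_leaf (HM (m + 3) (m + 3 + 1) z y) (v := Fin.last (m + 3)) (u := ⟨0, by omega⟩)
    (p := (z : ℂ)) ?_ hzc ?_ ?_ ?_ ?_ ?_ (finSuccAboveEquiv (Fin.last (m + 3)))]
  · congr 2
    ext i j
    have hi := i.2
    have hj := j.2
    simp only [HM, Cm, aH, of_apply, finSuccAboveEquiv_apply, Fin.succAbove_last,
      Fin.val_castSucc, Fin.ext_iff]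
    by_cases hij : i.1 = j.1
    · rw [if_pos hij, if_pos hij, if_neg (by omega)]
      by_cases hik : i.1 = 0
      · have hjk : j.1 = 0 := hij ▸ hik
        rw [if_pos ⟨hik, hjk⟩, if_pos hik]
        push_cast
        rfl
      · rw [if_neg fun h => hik h.1, if_neg hik, add_zero]
    · have h0 : ¬ (i.1 = 0 ∧ j.1 = 0) := fun h => hij (h.1.trans h.2.symm)
      rw [if_neg hij, if_neg hij, if_neg h0, add_zero]
      have h1 : (hr (m + 3) i.1 j.1 ∨ hr (m + 3) j.1 i.1) ↔ (i.1 + 1 = j.1 ∨ j.1 + 1 = i.1 ∨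
          (i.1 = 0 ∧ j.1 = m + 2) ∨ (j.1 = 0 ∧ i.1 = m + 2)) := by
        unfold hr
        omega
      simp only [h1]
  · intro h
    have := congrArg Fin.val h
    simp at this
  · simp only [HM, of_apply, Fin.val_last, if_true]
  · simp only [HM, of_apply, Fin.val_last]
    rw [if_neg (by omega), if_pos]
    unfold hr
    omega
  · simp only [HM, of_apply, Fin.val_last]
    rw [if_neg (by omega), if_pos]
    unfold hr
    omega
  · intro x hx1 hx2
    have h1 : x.1 ≠ 0 := fun h => hx1 (Fin.ext h)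
    have h2 : x.1 ≠ m + 3 := fun h => hx2 (Fin.ext h)
    have h3 := x.2
    simp only [HM, of_apply, Fin.val_last]
    rw [if_neg (by omega), if_neg]
    unfold hr
    omega
  · intro x hx1 hx2
    have h1 : x.1 ≠ 0 := fun h => hx1 (Fin.ext h)
    have h2 : x.1 ≠ m + 3 := fun h => hx2 (Fin.ext h)
    have h3 := x.2
    simp only [HM, of_apply, Fin.val_last]
    rw [if_neg (by omega), if_neg]
    unfold hr
    omega

theorem HM_all {k : ℕ} (hk : 3 ≤ k) {y : ℝ} (hy : 0 < y) : ∀ (s : ℕ) (z : ℝ),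
    (HM k (k + 1 + s) z y).det = (y : ℂ) ^ s * (HM k (k + 1) (z + s / y) y).det
  | 0, z => by simp
  | (s + 1), z => by
    have h1 := HM_succ hk (show k < k + 1 + s by omega) z hy
    rw [show k + 1 + (s + 1) = k + 1 + s + 1 by omega, h1, HM_all hk hy s]
    have h2 : z + 1 / y + (s : ℝ) / y = z + ((s + 1 : ℕ) : ℝ) / y := by
      push_cast
      ring
    rw [h2]
    ring

/-- **The determinant of `H^k_n`.** -/
theorem HM_det {k n : ℕ} (hk : 3 ≤ k) (hodd : Odd k) (hkn : k < n) {y : ℝ} (hy : 0 < y) :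
    ∃ P : ℝ, 0 < P ∧ (HM k n y y).det = (P : ℂ) *
      ((cyc k (aH (y + ((n : ℝ) - k - 1) / y) y) : ℂ) + 2 * Complex.I ^ k) := by
  obtain ⟨m, rfl⟩ : ∃ m, k = m + 3 := ⟨k - 3, by omega⟩
  obtain ⟨s, rfl⟩ : ∃ s, n = m + 3 + 1 + s := ⟨n - (m + 3 + 1), by omega⟩
  have hz : ((m + 3 + 1 + s : ℕ) : ℝ) - ((m + 3 : ℕ) : ℝ) - 1 = s := by
    push_cast
    ring
  rw [hz]
  have hz0 : 0 < y + (s : ℝ) / y := by positivity
  refine ⟨y ^ s * (y + s / y), by positivity, ?_⟩
  rw [HM_all hk hy s, HM_base m hz0, det_Cm]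
  have h2 : Even m := by
    have := Nat.odd_iff.1 hodd
    rw [Nat.even_iff]
    omega
  rw [h2.neg_one_pow, one_mul, cyc]
  push_cast
  rw [K_cast, K_cast]
  ring

theorem cyc_three_H (z y : ℝ) : cyc 3 (aH z y) = y ^ 3 + 3 * y + 1 / z * (y ^ 2 + 1) := by
  rw [cyc_three]
  simp only [aH, if_true, one_ne_zero, if_false, OfNat.ofNat_ne_zero]
  ring

theorem cyc_five_H (z y : ℝ) : cyc 5 (aH z y) =
    y ^ 5 + 5 * y ^ 3 + 5 * y + 1 / z * (y ^ 4 + 3 * y ^ 2 + 1) := by
  rw [cyc_five]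
  simp only [aH, if_true, one_ne_zero, if_false, OfNat.ofNat_ne_zero]
  ring

end Pool.Agent.R391.SqE
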