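import Pool.Agent.R391.SqE.Ana
import Pool.Agent.R391.SqE.Gr
import Pool.Agent.R391.SqE.HG
import Pool.Agent.R2.Util

/-!
Square energies of graphs and the determinants.
-/

set_option autoImplicit false

open Finset Matrix SimpleGraph

namespace Pool.Agent.R391.SqE

universe u

open Classical in
/-- The eigenvalues of the adjacency matrix of `G`. -/
noncomputable def eig {V : Type u} [Fintype V] (G : SimpleGraph V) : V → ℝ :=
  (G.isHermitian_adjMatrix ℝ).eigenvalues

open Classical in
/-- The positive square energy of `G`. -/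
noncomputable def sPlus {V : Type u} [Fintype V] (G : SimpleGraph V) : ℝ :=
  ∑ i with 0 < eig G i, eig G i ^ 2

open Classical in
/-- The negative square energy of `G`. -/
noncomputable def sMinus {V : Type u} [Fintype V] (G : SimpleGraph V) : ℝ :=
  ∑ i with eig G i < 0, eig G i ^ 2

/-- The graph `H^k_n` on the vertices `0, ..., n - 1`: the cycle `0, ..., k - 1`, the vertex `k` is
the centre of the star, its leaves are `0` and the vertices greater than `k`. -/
def Hg (k n : ℕ) : SimpleGraph (Fin n) := SimpleGraph.fromRel fun i j =>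
  (i.1 + 1 = j.1 ∧ j.1 < k) ∨ (i.1 = 0 ∧ j.1 = k - 1) ∨ (i.1 = 0 ∧ j.1 = k) ∨
    (i.1 = k ∧ k < j.1)

section

variable {V : Type u} [Fintype V] (G : SimpleGraph V)

open Classical in
theorem FF_eig (y : ℝ) : FF (eig G) y = (GM G fun _ => y).det := by
  have hch : (G.adjMatrix ℝ).charpoly =
      ∏ i, (Polynomial.X - Polynomial.C (eig G i)) := (G.isHermitian_adjMatrix ℝ).charpoly_eq
  have h1 : ((G.adjMatrix ℝ).map Complex.ofRealHom).charpoly =
      ∏ i, (Polynomial.X - Polynomial.C (eig G i : ℂ)) := by
    rw [charpoly_map, hch, Polynomial.map_prod]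
    refine Finset.prod_congr rfl fun i _ => ?_
    simp
  have h2 := eval_charpoly ((G.adjMatrix ℝ).map Complex.ofRealHom) (Complex.I * y)
  rw [h1, Polynomial.eval_prod] at h2
  simp only [Polynomial.eval_sub, Polynomial.eval_X, Polynomial.eval_C] at h2
  have h3 : (GM G fun _ => y) = (-Complex.I) • (Matrix.scalar V (Complex.I * (y : ℂ)) -
      (G.adjMatrix ℝ).map Complex.ofRealHom) := by
    ext i j
    simp only [GM, of_apply, Matrix.smul_apply, Matrix.sub_apply, scalar_apply, diagonal_apply, map_apply,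
      adjMatrix_apply, smul_eq_mul]
    have hI := Complex.I_mul_I
    by_cases hij : i = j
    · subst hij
      simp only [if_true, SimpleGraph.irrefl, if_false, map_zero]
      linear_combination (y : ℂ) * hI
    · rw [if_neg hij, if_neg hij]
      by_cases hadj : G.Adj i j
      · rw [if_pos hadj, if_pos hadj]
        simp
      · rw [if_neg hadj, if_neg hadj]
        simp
  rw [h3, det_smul, ← h2, FF, ← Finset.card_univ, ← Finset.prod_const, ← Finset.prod_mul_distrib]
  refine Finset.prod_congr rfl fun i _ => ?_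
  linear_combination (y : ℂ) * Complex.I_mul_I

theorem eig_sum : ∑ i, eig G i = 0 := by
  classical
  have h := Pool.Agent.R2.Util.sum_eigenvalues (G.isHermitian_adjMatrix ℝ)
  simp only [adjMatrix_apply, SimpleGraph.irrefl, if_false, Finset.sum_const_zero] at h
  exact h

theorem eig_sq : ∑ i, eig G i ^ 2 = 2 * (G.edgeSet.ncard : ℝ) := by
  classical
  have h := Pool.Agent.R2.Util.sum_sq_eigenvalues (G.isHermitian_adjMatrix ℝ)
  have h1 : ∑ u, ∑ v, (G.adjMatrix ℝ) u v ^ 2 = 2 * (G.edgeSet.ncard : ℝ) := by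
    have h2 : ∀ u, ∑ v, (G.adjMatrix ℝ) u v ^ 2 = (G.degree u : ℝ) := by
      intro u
      rw [degree_eq_sum_if_adj]
      refine Finset.sum_congr rfl fun v _ => ?_
      rw [adjMatrix_apply]
      split_ifs <;> simp
    simp only [h2]
    rw [← Nat.cast_sum, G.sum_degrees_eq_twice_card_edges, Set.ncard_eq_toFinset_card']
    push_cast
    rfl
  rw [h1] at h
  exact h

theorem sPlus_eq : sPlus G = (∑ i, eig G i ^ 2 + ∑ i, eig G i * |eig G i|) / 2 := by
  classical
  unfold sPlus
  rw [Finset.sum_filter, ← Finset.sum_add_distrib, Finset.sum_div]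
  refine Finset.sum_congr rfl fun i _ => ?_
  split_ifs with h
  · rw [abs_of_pos h]
    ring
  · rw [abs_of_nonpos (not_lt.1 h)]
    ring

theorem sMinus_eq : sMinus G = (∑ i, eig G i ^ 2 - ∑ i, eig G i * |eig G i|) / 2 := by
  classical
  unfold sMinus
  rw [Finset.sum_filter, ← Finset.sum_sub_distrib, Finset.sum_div]
  refine Finset.sum_congr rfl fun i _ => ?_
  split_ifs with h
  · rw [abs_of_neg h]
    ring
  · rw [abs_of_nonneg (not_lt.1 h)]
    ring

end

theorem GM_H (k n : ℕ) (y : ℝ) [DecidableRel (Hg k n).Adj] :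
    (GM (Hg k n) fun _ => y) = HM k n y y := by
  classical
  ext i j
  simp only [GM, HM, of_apply, Hg, fromRel_adj, Fin.ext_iff, ite_self]
  by_cases hij : i.1 = j.1
  · rw [if_pos hij, if_pos hij]
  · rw [if_neg hij, if_neg hij]
    refine if_congr ?_ rfl rfl
    constructor
    · exact fun h => h.2
    · exact fun h => ⟨fun h2 => hij (congrArg Fin.val h2), h⟩

/-- the number of edges of `H^k_n` -/
theorem H_count {k n : ℕ} (hk : 3 ≤ k) (hkn : k < n) : (Hg k n).edgeSet.ncard = n := by
  classical
  obtain ⟨g, hg⟩ : ∃ g : Fin n → Fin n, ∀ i, (g i).1 =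
      if i.1 + 1 < k then i.1 + 1 else if i.1 ≤ k then 0 else k :=
    ⟨fun i => ⟨if i.1 + 1 < k then i.1 + 1 else if i.1 ≤ k then 0 else k, by
      have := i.2
      split_ifs <;> omega⟩, fun i => rfl⟩
  have hadj : ∀ i j, (Hg k n).Adj i j ↔ (j = g i ∨ i = g j) := by
    intro i j
    rw [Hg, fromRel_adj, ne_eq, Fin.ext_iff, Fin.ext_iff, Fin.ext_iff, hg, hg]
    have := i.2
    have := j.2
    split_ifs <;> omega
  have hr : (Hg k n).edgeSet = Set.range fun i => s(i, g i) := by
    ext e
    induction e using Sym2.ind with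
    | _ a b =>
      rw [mem_edgeSet, hadj, Set.mem_range]
      constructor
      · rintro (h | h)
        · exact ⟨a, by rw [h]⟩
        · exact ⟨b, by rw [h, Sym2.eq_swap]⟩
      · rintro ⟨i, hi⟩
        rw [Sym2.eq_iff] at hi
        rcases hi with ⟨h1, h2⟩ | ⟨h1, h2⟩
        · left
          rw [← h1, ← h2]
        · right
          rw [← h1, ← h2]
  have hinj : Function.Injective fun i => s(i, g i) := by
    intro i j hij
    rw [Sym2.eq_iff] at hij
    rcases hij with ⟨h1, _⟩ | ⟨h1, h2⟩
    · exact h1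
    · rw [Fin.ext_iff, hg] at h1 h2
      have := i.2
      have := j.2
      apply Fin.ext
      split_ifs at h1 h2 <;> omega
  rw [hr, ← Set.image_univ, Set.ncard_image_of_injective _ hinj, Set.ncard_univ, Nat.card_fin]

end Pool.Agent.R391.SqE
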