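import Pool.Agent.R391.SqE.Eig

/-!
The comparison of unicyclic graphs with `H^5_n` and `H^3_n`.
-/

set_option autoImplicit false

open Finset Matrix SimpleGraph

namespace Pool.Agent.R391.SqE

universe u

theorem ratio_of {z : ℂ} {P c : ℝ} {k : ℕ} (hP : 0 < P) (hc : 0 < c) (hk : Odd k)
    (hz : z = (P : ℂ) * ((c : ℂ) + 2 * Complex.I ^ k)) : 0 < z.re ∧
      (k % 4 = 1 → z.im / z.re = 2 / c) ∧ (k % 4 = 3 → z.im / z.re = -(2 / c)) := by
  have h4 : k % 4 = 1 ∨ k % 4 = 3 := by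
    have := Nat.odd_iff.1 hk
    omega
  have hI4 : ∀ q : ℕ, Complex.I ^ (4 * q) = 1 := by
    intro q
    rw [pow_mul, Complex.I_pow_four, one_pow]
  have hre1 : k % 4 = 1 → z.re = P * c ∧ z.im = P * 2 := by
    intro h
    have h1 : Complex.I ^ k = Complex.I := by
      rw [← Nat.div_add_mod k 4, h, pow_add, hI4, one_mul, pow_one]
    rw [hz, h1]
    constructor <;> simp
  have hre3 : k % 4 = 3 → z.re = P * c ∧ z.im = P * (-2) := by
    intro h
    have h1 : Complex.I ^ k = -Complex.I := by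
      rw [← Nat.div_add_mod k 4, h, pow_add, hI4, one_mul, Complex.I_pow_three]
    rw [hz, h1]
    constructor <;> simp
  refine ⟨?_, ?_, ?_⟩
  · rcases h4 with h | h
    · rw [(hre1 h).1]
      positivity
    · rw [(hre3 h).1]
      positivity
  · intro h
    rw [(hre1 h).1, (hre1 h).2]
    field_simp
  · intro h
    rw [(hre3 h).1, (hre3 h).2]
    field_simp

section

variable {V : Type u} [Fintype V] {G : SimpleGraph V}

theorem G_det (hc : G.Connected) (he : G.edgeSet.ncard = Fintype.card V) (hb : ¬ G.Colorable 2)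
    {y : ℝ} (hy : 0 < y) : ∃ k, Odd k ∧ 3 ≤ k ∧ k ≤ Fintype.card V ∧
      ∃ (P : ℝ) (a : ℕ → ℝ), 0 < P ∧ (∀ i, y ≤ a i) ∧ (k < Fintype.card V →
        y / (y ^ 2 + ((Fintype.card V : ℝ) - k - 1)) ≤ ∑ i ∈ range k, (a i - y)) ∧
      FF (eig G) y = (P : ℂ) * ((cyc k a : ℂ) + 2 * Complex.I ^ k) := by
  classical
  have he' : G.edgeFinset.card = Fintype.card V := by
    rw [← he, Set.ncard_eq_toFinset_card']
    rfl
  rw [FF_eig]
  exact main_ind hy (Fintype.card V) (Fintype.card V) V G (fun _ => y) (fun _ => 0) rfl hc he'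
    (fun h => hb (bip_colorable h)) (fun _ => le_rfl) (fun _ => by simp) (by simp)
    (fun h => absurd h (lt_irrefl _))

theorem FF_eig' {W : Type u} [Fintype W] (G : SimpleGraph W) [i1 : DecidableEq W]
    [i2 : DecidableRel G.Adj] (y : ℝ) : FF (eig G) y = (GM G fun _ => y).det := by
  have e1 : i1 = fun a b => Classical.propDecidable (a = b) := Subsingleton.elim _ _
  have e2 : i2 = fun a b => Classical.propDecidable (G.Adj a b) := Subsingleton.elim _ _
  subst e1 e2
  exact FF_eig G y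

theorem H_ratio {k n : ℕ} (hk : 3 ≤ k) (hodd : Odd k) (hkn : k < n) {y : ℝ} (hy : 0 < y) :
    0 < (FF (eig (Hg k n)) y).re ∧
      (k % 4 = 1 → (FF (eig (Hg k n)) y).im / (FF (eig (Hg k n)) y).re =
        2 / cyc k (aH (y + ((n : ℝ) - k - 1) / y) y)) ∧
      (k % 4 = 3 → (FF (eig (Hg k n)) y).im / (FF (eig (Hg k n)) y).re =
        -(2 / cyc k (aH (y + ((n : ℝ) - k - 1) / y) y))) := by
  classical
  obtain ⟨P, hP, h1⟩ := HM_det hk hodd hkn hy
  have h0 : FF (eig (Hg k n)) y = (HM k n y y).det := by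
    rw [FF_eig', ← GM_H]
  rw [← h0] at h1
  have hn : (0 : ℝ) ≤ (n : ℝ) - k - 1 := by
    have h2 : ((k + 1 : ℕ) : ℝ) ≤ n := by exact_mod_cast hkn
    push_cast at h2
    linarith
  have hc : 0 < cyc k (aH (y + ((n : ℝ) - k - 1) / y) y) := by
    refine cyc_pos hy (fun i => ?_) hk hodd
    unfold aH
    split_ifs
    · have : 0 < 1 / (y + ((n : ℝ) - k - 1) / y) := by positivity
      linarith
    · exact le_rfl
  exact ratio_of hP hc hodd h1

theorem phi_eq {y s : ℝ} (hy : 0 < y) (hs : 0 ≤ s) : 1 / (y + s / y) = y / (y ^ 2 + s) := by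
  have h1 : y + s / y = (y ^ 2 + s) / y := by
    field_simp
  rw [h1, one_div_div]

/-- **The two comparisons.** -/
theorem final (hn : 19 ≤ Fintype.card V) (hc : G.Connected)
    (he : G.edgeSet.ncard = Fintype.card V) (hb : ¬ G.Colorable 2) :
    (∑ i, eig (Hg 5 (Fintype.card V)) i * |eig (Hg 5 (Fintype.card V)) i| ≤
      ∑ i, eig G i * |eig G i|) ∧
    (∑ i, eig G i * |eig G i| ≤
      ∑ i, eig (Hg 3 (Fintype.card V)) i * |eig (Hg 3 (Fintype.card V)) i|) := by
  classical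
  obtain ⟨n, hnV⟩ : ∃ n, n = Fintype.card V := ⟨_, rfl⟩
  rw [← hnV] at hn ⊢
  have hnr : (19 : ℝ) ≤ n := by exact_mod_cast hn
  have hG : ∀ y : ℝ, 0 < y → 0 < (FF (eig G) y).re ∧
      (0 < (FF (eig G) y).im / (FF (eig G) y).re → ∃ c,
        y ^ 5 + 5 * y ^ 3 + 5 * y + y / (y ^ 2 + ((n : ℝ) - 5 - 1)) * (y ^ 4 + 3 * y ^ 2 + 1) ≤ c ∧
          (FF (eig G) y).im / (FF (eig G) y).re = 2 / c) ∧
      ((FF (eig G) y).im / (FF (eig G) y).re < 0 → ∃ c,
        y ^ 3 + 3 * y + y / (y ^ 2 + ((n : ℝ) - 3 - 1)) * (y ^ 2 + 1) ≤ c ∧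
          (FF (eig G) y).im / (FF (eig G) y).re = -(2 / c)) := by
    intro y hy
    obtain ⟨k, hodd, hk3, hkn, P, a, hP, ha, hka, hdet⟩ := G_det hc he hb hy
    rw [← hnV] at hkn hka
    have hcp := cyc_pos hy ha hk3 hodd
    obtain ⟨h1, h2, h3⟩ := ratio_of hP hcp hodd hdet
    have h4 : k % 4 = 1 ∨ k % 4 = 3 := by
      have := Nat.odd_iff.1 hodd
      omega
    have h5 : 0 < 2 / cyc k a := by positivity
    refine ⟨h1, fun hpos => ⟨cyc k a, ?_, ?_⟩, fun hneg => ⟨cyc k a, ?_, ?_⟩⟩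
    · have hk1 : k % 4 = 1 := by
        rcases h4 with h | h
        · exact h
        · rw [h3 h] at hpos
          linarith
      by_cases hk5 : k = 5
      · subst hk5
        have h6 := hka (by omega)
        push_cast at h6
        exact cyc_five_ge hy.le ha h6
      · have h6 := cyc_ge (k0 := 9) (by norm_num) (show 9 ≤ k by omega)
          ⟨(k - 9) / 2, by omega⟩ hy.le ha
        rw [cyc_nine] at h6
        have hd : 0 < y ^ 2 + ((n : ℝ) - 5 - 1) := by
          have := sq_nonneg y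
          linarith
        have h7 : y / (y ^ 2 + ((n : ℝ) - 5 - 1)) * (y ^ 4 + 3 * y ^ 2 + 1) ≤
            y ^ 3 + 2 * y := by
          rw [div_mul_eq_mul_div, div_le_iff₀ hd]
          have h8 : (y ^ 3 + 2 * y) * (y ^ 2 + ((n : ℝ) - 5 - 1)) - y * (y ^ 4 + 3 * y ^ 2 + 1) =
              ((n : ℝ) - 19) * (y ^ 3 + 2 * y) + (12 * y ^ 3 + 25 * y) := by ring
          have h9 : 0 ≤ ((n : ℝ) - 19) * (y ^ 3 + 2 * y) :=
            mul_nonneg (by linarith) (by positivity)
          have h10 : 0 ≤ 12 * y ^ 3 + 25 * y := by positivity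
          linarith
        have h11 : 0 ≤ y ^ 9 + 9 * y ^ 7 + 26 * y ^ 5 + 24 * y ^ 3 + 2 * y := by positivity
        linarith
    · rcases h4 with h | h
      · exact h2 h
      · rw [h3 h] at hpos
        linarith
    · have hk1 : k % 4 = 3 := by
        rcases h4 with h | h
        · rw [h2 h] at hneg
          linarith
        · exact h
      by_cases hk5 : k = 3
      · subst hk5
        have h6 := hka (by omega)
        push_cast at h6
        exact cyc_three_ge hy.le ha h6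
      · have h6 := cyc_ge (k0 := 7) (by norm_num) (show 7 ≤ k by omega)
          ⟨(k - 7) / 2, by omega⟩ hy.le ha
        rw [cyc_seven] at h6
        have hd : 0 < y ^ 2 + ((n : ℝ) - 3 - 1) := by
          have := sq_nonneg y
          linarith
        have h7 : y / (y ^ 2 + ((n : ℝ) - 3 - 1)) * (y ^ 2 + 1) ≤ y := by
          rw [div_mul_eq_mul_div, div_le_iff₀ hd]
          have h9 : 0 ≤ y * ((n : ℝ) - 5) := mul_nonneg hy.le (by linarith)
          linarith
        have h11 : 0 ≤ y ^ 7 + 7 * y ^ 5 + 13 * y ^ 3 + 3 * y := by positivity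
        linarith
    · rcases h4 with h | h
      · rw [h2 h] at hneg
        linarith
      · exact h3 h
  have h5 : ∀ y : ℝ, 0 < y → 0 < (FF (eig (Hg 5 n)) y).re ∧
      (FF (eig (Hg 5 n)) y).im / (FF (eig (Hg 5 n)) y).re = 2 / (y ^ 5 + 5 * y ^ 3 + 5 * y +
        y / (y ^ 2 + ((n : ℝ) - 5 - 1)) * (y ^ 4 + 3 * y ^ 2 + 1)) := by
    intro y hy
    obtain ⟨h1, h2, -⟩ := H_ratio (k := 5) (n := n) (by norm_num) (by decide) (by omega) hy
    refine ⟨h1, ?_⟩
    rw [h2 rfl, cyc_five_H]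
    push_cast
    rw [phi_eq hy (by linarith)]
  have h3 : ∀ y : ℝ, 0 < y → 0 < (FF (eig (Hg 3 n)) y).re ∧
      (FF (eig (Hg 3 n)) y).im / (FF (eig (Hg 3 n)) y).re = -(2 / (y ^ 3 + 3 * y +
        y / (y ^ 2 + ((n : ℝ) - 3 - 1)) * (y ^ 2 + 1))) := by
    intro y hy
    obtain ⟨h1, -, h2⟩ := H_ratio (k := 3) (n := n) (by norm_num) (by decide) (by omega) hy
    refine ⟨h1, ?_⟩
    rw [h2 rfl, cyc_three_H]
    push_cast
    rw [phi_eq hy (by linarith)]
  have hp5 : ∀ y : ℝ, 0 < y → 0 < y ^ 5 + 5 * y ^ 3 + 5 * y +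
        y / (y ^ 2 + ((n : ℝ) - 5 - 1)) * (y ^ 4 + 3 * y ^ 2 + 1) := by
    intro y hy
    have : 0 < y ^ 2 + ((n : ℝ) - 5 - 1) := by
      have := sq_nonneg y
      linarith
    positivity
  have hp3 : ∀ y : ℝ, 0 < y → 0 < y ^ 3 + 3 * y +
        y / (y ^ 2 + ((n : ℝ) - 3 - 1)) * (y ^ 2 + 1) := by
    intro y hy
    have : 0 < y ^ 2 + ((n : ℝ) - 3 - 1) := by
      have := sq_nonneg y
      linarith
    positivity
  constructor
  · refine compareF _ _ (eig_sum _) (eig_sum _) (fun y hy => (hG y hy).1)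
      (fun y hy => (h5 y hy).1) fun y hy => ?_
    rw [(h5 y hy).2]
    by_cases hpos : 0 < (FF (eig G) y).im / (FF (eig G) y).re
    · obtain ⟨c, h6, h7⟩ := (hG y hy).2.1 hpos
      rw [h7]
      exact div_le_div_of_nonneg_left (by norm_num) (hp5 y hy) h6
    · have h6 := hp5 y hy
      exact (not_lt.1 hpos).trans (by positivity)
  · refine compareF _ _ (eig_sum _) (eig_sum _) (fun y hy => (h3 y hy).1)
      (fun y hy => (hG y hy).1) fun y hy => ?_
    rw [(h3 y hy).2]
    by_cases hneg : (FF (eig G) y).im / (FF (eig G) y).re < 0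
    · obtain ⟨c, h6, h7⟩ := (hG y hy).2.2 hneg
      rw [h7]
      exact neg_le_neg (div_le_div_of_nonneg_left (by norm_num) (hp3 y hy) h6)
    · have h6 := hp3 y hy
      have h7 : 0 < 2 / (y ^ 3 + 3 * y + y / (y ^ 2 + ((n : ℝ) - 3 - 1)) * (y ^ 2 + 1)) := by
        positivity
      linarith [not_lt.1 hneg]

end

end Pool.Agent.R391.SqE
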